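import Pool.Agent.Helper57.SS.Final

/-!
# Project SS: mixing of order four
-/

set_option autoImplicit false

namespace Pool.Agent.Helper57.SS

open MeasureTheory Filter Topology

/-- Decorrelation of four separated translates. -/
def Mix4 {α : Type} [MeasurableSpace α] (μ : Measure α) (T S : α ≃ᵐ α) (f g : α → ℝ) : Prop :=
  ∀ ε : ℝ, 0 < ε → ∃ D : ℕ, ∀ i j p q : ℕ, D < i → D < j → D < p → D < q →
    (D : ℤ) < |(i : ℤ) - j| → (D : ℤ) < |(p : ℤ) - q| → (D : ℤ) < |(i : ℤ) - p| →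
    (D : ℤ) < |(i : ℤ) - q| → (D : ℤ) < |(j : ℤ) - p| → (D : ℤ) < |(j : ℤ) - q| →
    |∫ x, f ((⇑T)^[i] x) * f ((⇑T)^[j] x) * (g ((⇑S)^[p] x) * g ((⇑S)^[q] x)) ∂μ -
      (∫ x, f x ∂μ) ^ 2 * (∫ x, g x ∂μ) ^ 2| ≤ ε

section
variable {α : Type} [MeasurableSpace α] {μ : Measure α} [IsProbabilityMeasure μ]

/-- expansion of the square -/
theorem sq_expand {T S : α ≃ᵐ α} {a b : ℕ → ℕ} {f g : α → ℝ} (hf : Bd f) (hg : Bd g) (N : ℕ) :
    ∫ x, (Av T S a b f g N x) ^ 2 ∂μ = ((N : ℝ) ^ 2)⁻¹ * ∑ q ∈ Finset.range N ×ˢ Finset.range N,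
      ∫ x, f ((⇑T)^[a q.1] x) * f ((⇑T)^[a q.2] x) * (g ((⇑S)^[b q.1] x) * g ((⇑S)^[b q.2] x)) ∂μ := by
  rw [← integral_finsetSum]
  · rw [← integral_const_mul]
    refine integral_congr_ae (Eventually.of_forall fun x => ?_)
    simp only [Av]
    rw [mul_pow, inv_pow, sq (∑ k ∈ Finset.range N, _), Finset.sum_mul_sum, ← Finset.sum_product']
    congr 1
    exact Finset.sum_congr rfl fun q _ => by ring
  · intro q _
    have m1 : ∀ n : ℕ, Measurable (fun x => f ((⇑T)^[n] x)) := fun n =>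
      hf.1.comp (T.measurable.iterate n)
    have m2 : ∀ n : ℕ, Measurable (fun x => g ((⇑S)^[n] x)) := fun n =>
      hg.1.comp (S.measurable.iterate n)
    refine bd_int (f := fun x => f ((⇑T)^[a q.1] x) * f ((⇑T)^[a q.2] x) *
      (g ((⇑S)^[b q.1] x) * g ((⇑S)^[b q.2] x))) ⟨((m1 _).mul (m1 _)).mul ((m2 _).mul (m2 _)), fun x => ?_⟩
    rw [abs_mul, abs_mul, abs_mul]
    exact mul_le_one₀ (mul_le_one₀ (hf.2 _) (abs_nonneg _) (hf.2 _)) (by positivity)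
      (mul_le_one₀ (hg.2 _) (abs_nonneg _) (hg.2 _))

theorem Bd.prod4 {T S : α ≃ᵐ α} {f g : α → ℝ} (hf : Bd f) (hg : Bd g) (i j p q : ℕ) :
    Bd (fun x => f ((⇑T)^[i] x) * f ((⇑T)^[j] x) * (g ((⇑S)^[p] x) * g ((⇑S)^[q] x))) := by
  have m1 : ∀ n : ℕ, Measurable (fun x => f ((⇑T)^[n] x)) := fun n =>
    hf.1.comp (T.measurable.iterate n)
  have m2 : ∀ n : ℕ, Measurable (fun x => g ((⇑S)^[n] x)) := fun n =>
    hg.1.comp (S.measurable.iterate n)
  refine ⟨((m1 _).mul (m1 _)).mul ((m2 _).mul (m2 _)), fun x => ?_⟩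
  rw [abs_mul, abs_mul, abs_mul]
  exact mul_le_one₀ (mul_le_one₀ (hf.2 _) (abs_nonneg _) (hf.2 _)) (by positivity)
    (mul_le_one₀ (hg.2 _) (abs_nonneg _) (hg.2 _))

theorem small_count {a : ℕ → ℕ} (ha : StrictMono a) (D k : ℕ) (hk : D < k) : D < a k :=
  lt_of_lt_of_le hk (ha.id_le k)

theorem sq_mix (hSEP : G_SEP) {T S : α ≃ᵐ α} {a b : ℕ → ℕ} (hW : Wp a b) (ha : StrictMono a)
    (hb : StrictMono b) {f g : α → ℝ} (hf : Bd f) (hg : Bd g) (h : Mix4 μ T S f g) :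
    Tendsto (fun N => ∫ x, (Av T S a b f g N x) ^ 2 ∂μ) atTop
      (𝓝 ((∫ x, f x ∂μ) ^ 2 * (∫ x, g x ∂μ) ^ 2)) := by
  set c : ℝ := (∫ x, f x ∂μ) ^ 2 * (∫ x, g x ∂μ) ^ 2 with hc
  have hc1 : |c| ≤ 1 := by
    rw [hc, abs_mul, abs_pow, abs_pow]
    exact mul_le_one₀ (pow_le_one₀ (abs_nonneg _) (abs_int_le hf)) (by positivity)
      (pow_le_one₀ (abs_nonneg _) (abs_int_le hg))
  rw [Metric.tendsto_atTop]
  intro ε hε
  obtain ⟨D, hD⟩ := h (ε / 4) (by positivity)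
  have hsep := hSEP a b hW ha hb D
  rw [Metric.tendsto_atTop] at hsep
  obtain ⟨N1, hN1⟩ := hsep (ε / 16) (by positivity)
  obtain ⟨N2, hN2⟩ := exists_nat_gt (16 * ((D : ℝ) + 1) / ε)
  refine ⟨max (max N1 N2) 1, fun N hN => ?_⟩
  have hN1' : N1 ≤ N := le_trans (le_trans (le_max_left _ _) (le_max_left _ _)) hN
  have hN2' : N2 ≤ N := le_trans (le_trans (le_max_right _ _) (le_max_left _ _)) hN
  have hNp : 0 < N := lt_of_lt_of_le one_pos (le_trans (le_max_right _ _) hN)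
  have hNr : (0 : ℝ) < N := by exact_mod_cast hNp
  have hcard := hN1 N hN1'
  rw [Real.dist_eq, sub_zero] at hcard
  rw [Real.dist_eq, sq_expand hf hg N]
  set F : ℕ × ℕ → ℝ := fun q => ∫ x, f ((⇑T)^[a q.1] x) * f ((⇑T)^[a q.2] x) *
    (g ((⇑S)^[b q.1] x) * g ((⇑S)^[b q.2] x)) ∂μ with hF
  have hFb : ∀ q, |F q| ≤ 1 := fun q => abs_int_le (hf.prod4 hg _ _ _ _)
  set Q := Finset.range N ×ˢ Finset.range N with hQ
  have hQc : (Q.card : ℝ) = (N : ℝ) ^ 2 := by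
    rw [hQ, Finset.card_product, Finset.card_range]; push_cast; ring
  set B1 := Q.filter fun q : ℕ × ℕ =>
    q.1 = q.2 ∨ |(a q.1 : ℤ) - a q.2| ≤ D ∨ |(b q.1 : ℤ) - b q.2| ≤ D ∨ |(a q.1 : ℤ) - b q.1| ≤ D ∨
    |(a q.2 : ℤ) - b q.2| ≤ D ∨ |(a q.1 : ℤ) - b q.2| ≤ D ∨ |(a q.2 : ℤ) - b q.1| ≤ D with hB1
  set B2 := Q.filter fun q : ℕ × ℕ => q.1 ≤ D ∨ q.2 ≤ D with hB2
  have hB2c : (B2.card : ℝ) ≤ 2 * (D + 1) * N := by
    have hsub : B2 ⊆ (Finset.range (D + 1) ×ˢ Finset.range N) ∪ (Finset.range N ×ˢ Finset.range (D + 1)) := by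
      intro q hq
      rw [hB2, Finset.mem_filter, hQ, Finset.mem_product] at hq
      rw [Finset.mem_union, Finset.mem_product, Finset.mem_product]
      rcases hq.2 with h | h
      · left; exact ⟨Finset.mem_range.2 (by omega), hq.1.2⟩
      · right; exact ⟨hq.1.1, Finset.mem_range.2 (by omega)⟩
    have h1 := (Finset.card_le_card hsub).trans (Finset.card_union_le _ _)
    rw [Finset.card_product, Finset.card_product, Finset.card_range, Finset.card_range] at h1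
    have h2 : (B2.card : ℝ) ≤ ((D + 1) * N + N * (D + 1) : ℕ) := by exact_mod_cast h1
    push_cast at h2
    linarith
  have e1 : ((N : ℝ) ^ 2)⁻¹ * ∑ q ∈ Q, F q - c = ((N : ℝ) ^ 2)⁻¹ * ∑ q ∈ Q, (F q - c) := by
    rw [Finset.sum_sub_distrib, Finset.sum_const, nsmul_eq_mul, hQc]
    field_simp
  rw [e1, abs_mul, abs_inv, abs_of_nonneg (by positivity : (0 : ℝ) ≤ (N : ℝ) ^ 2)]
  have hterm : ∀ q ∈ Q, |F q - c| ≤ ε / 4 + (if q ∈ B1 then 2 else 0) + (if q ∈ B2 then 2 else 0) := by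
    intro q hq
    have h2 : |F q - c| ≤ 2 := (abs_sub _ _).trans (by linarith [hFb q])
    by_cases h1 : q ∈ B1
    · rw [if_pos h1]
      split_ifs <;> linarith
    · by_cases h3 : q ∈ B2
      · rw [if_pos h3, if_neg h1]
        linarith
      · rw [if_neg h1, if_neg h3, add_zero, add_zero]
        rw [hB1, Finset.mem_filter] at h1
        rw [hB2, Finset.mem_filter] at h3
        push Not at h1 h3
        obtain ⟨k1, k2, k3, k4, k5, k6, k7⟩ := h1 hq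
        obtain ⟨l1, l2⟩ := h3 hq
        exact hD (a q.1) (a q.2) (b q.1) (b q.2) (small_count ha D _ l1) (small_count ha D _ l2)
          (small_count hb D _ l1) (small_count hb D _ l2) k2 k3 k4 k6 k7 k5
  have hsum : |∑ q ∈ Q, (F q - c)| ≤ (N : ℝ) ^ 2 * (ε / 4) + 2 * B1.card + 2 * B2.card := by
    refine (Finset.abs_sum_le_sum_abs _ _).trans ((Finset.sum_le_sum hterm).trans (le_of_eq ?_))
    rw [Finset.sum_add_distrib, Finset.sum_add_distrib, Finset.sum_const, nsmul_eq_mul, hQc,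
      Finset.sum_ite_mem, Finset.sum_ite_mem, Finset.sum_const, Finset.sum_const, nsmul_eq_mul,
      nsmul_eq_mul, Finset.inter_eq_right.2 (Finset.filter_subset _ _),
      Finset.inter_eq_right.2 (Finset.filter_subset _ _)]
    ring
  have h5 : ((N : ℝ) ^ 2)⁻¹ * (B1.card : ℝ) < ε / 16 := by
    have := le_abs_self (((N : ℝ) ^ 2)⁻¹ * (B1.card : ℝ))
    exact lt_of_le_of_lt this hcard
  have h6 : ((N : ℝ) ^ 2)⁻¹ * (B2.card : ℝ) ≤ ε / 8 := by
    have h7 : 16 * ((D : ℝ) + 1) / ε < N := lt_of_lt_of_le hN2 (by exact_mod_cast hN2')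
    rw [div_lt_iff₀ hε] at h7
    rw [inv_mul_le_iff₀ (by positivity)]
    nlinarith
  calc ((N : ℝ) ^ 2)⁻¹ * |∑ q ∈ Q, (F q - c)| ≤
      ((N : ℝ) ^ 2)⁻¹ * ((N : ℝ) ^ 2 * (ε / 4) + 2 * B1.card + 2 * B2.card) :=
        mul_le_mul_of_nonneg_left hsum (by positivity)
    _ = ε / 4 + 2 * (((N : ℝ) ^ 2)⁻¹ * (B1.card : ℝ)) + 2 * (((N : ℝ) ^ 2)⁻¹ * (B2.card : ℝ)) := by
        field_simp
    _ < ε := by linarith


theorem Av_abs_le {T S : α ≃ᵐ α} {a b : ℕ → ℕ} {f g : α → ℝ} (hf : Bd f) (hg : Bd g) (N : ℕ) (x : α) :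
    |Av T S a b f g N x| ≤ 1 := by
  unfold Av
  rcases Nat.eq_zero_or_pos N with rfl | hN
  · simp
  · rw [abs_mul, abs_inv, Nat.abs_cast, inv_mul_le_iff₀ (by exact_mod_cast hN), mul_one]
    refine (Finset.abs_sum_le_sum_abs _ _).trans ?_
    calc ∑ k ∈ Finset.range N, |f ((⇑T)^[a k] x) * g ((⇑S)^[b k] x)| ≤
        ∑ k ∈ Finset.range N, (1 : ℝ) := by
          refine Finset.sum_le_sum fun k _ => ?_
          rw [abs_mul]
          exact mul_le_one₀ (hf.2 _) (abs_nonneg _) (hg.2 _)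
      _ = N := by simp

theorem conv_of_var {T S : α ≃ᵐ α} {a b : ℕ → ℕ} (hT : MeasurePreserving (⇑T) μ μ)
    (hS : MeasurePreserving (⇑S) μ μ) {f g : α → ℝ} (hf : Bd f) (hg : Bd g)
    (h1 : Tendsto (fun N => ∫ x, (Av T S a b f g N x) ^ 2 ∂μ) atTop
      (𝓝 (((∫ x, f x ∂μ) * ∫ x, g x ∂μ) ^ 2)))
    (h2 : Tendsto (fun N => ∫ x, Av T S a b f g N x ∂μ) atTop (𝓝 ((∫ x, f x ∂μ) * ∫ x, g x ∂μ))) :
    Conv μ T S a b f g := by
  unfold Conv
  set c : ℝ := (∫ x, f x ∂μ) * ∫ x, g x ∂μ with hc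
  have hm : ∀ N, AEStronglyMeasurable (fun x => Av T S a b f g N x) μ := fun N =>
    aesm_Av hT hS hf.1.aestronglyMeasurable hg.1.aestronglyMeasurable N
  have hL : ∀ N, MemLp (fun x => Av T S a b f g N x - c) 2 μ := fun N =>
    (MemLp.of_bound (hm N) 1 (Eventually.of_forall fun x => by
      rw [Real.norm_eq_abs]; exact Av_abs_le hf hg N x)).sub (memLp_const c)
  have e : ∀ N : ℕ, eLpNorm (fun x => Av T S a b f g N x - c) 2 μ =
      ENNReal.ofReal (∫ x, (Av T S a b f g N x - c) ^ 2 ∂μ) ^ (1 / 2 : ℝ) := by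
    intro N
    rw [(hL N).eLpNorm_eq_integral_rpow_norm (by norm_num) (by norm_num)]
    have e2 : (2 : ENNReal).toReal = 2 := by norm_num
    rw [e2]
    have e3 : ∫ x, ‖Av T S a b f g N x - c‖ ^ (2 : ℝ) ∂μ = ∫ x, (Av T S a b f g N x - c) ^ 2 ∂μ := by
      refine integral_congr_ae (Eventually.of_forall fun x => ?_)
      show ‖Av T S a b f g N x - c‖ ^ (2 : ℝ) = (Av T S a b f g N x - c) ^ 2
      rw [Real.norm_eq_abs, Real.rpow_two, sq_abs]
    rw [e3, ENNReal.ofReal_rpow_of_nonneg (integral_nonneg fun x => sq_nonneg _) (by norm_num)]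
    norm_num
  simp_rw [e]
  have h4 : Tendsto (fun N => ∫ x, (Av T S a b f g N x - c) ^ 2 ∂μ) atTop (𝓝 0) := by
    have h5 : ∀ N, ∫ x, (Av T S a b f g N x - c) ^ 2 ∂μ =
        ∫ x, (Av T S a b f g N x) ^ 2 ∂μ - 2 * c * ∫ x, Av T S a b f g N x ∂μ + c ^ 2 := by
      intro N
      have i0 : Integrable (fun x => Av T S a b f g N x) μ := memLp_one_iff_integrable.1
        (MemLp.of_bound (hm N) 1 (Eventually.of_forall fun x => by
          rw [Real.norm_eq_abs]; exact Av_abs_le hf hg N x))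
      have i1 : Integrable (fun x => (Av T S a b f g N x) ^ 2) μ := memLp_one_iff_integrable.1
        (MemLp.of_bound ((hm N).pow 2) 1 (Eventually.of_forall fun x => by
          rw [Real.norm_eq_abs]
          show |Av T S a b f g N x ^ 2| ≤ 1
          rw [abs_pow]
          exact pow_le_one₀ (abs_nonneg _) (Av_abs_le hf hg N x)))
      have e : (fun x => (Av T S a b f g N x - c) ^ 2) =
          fun x => (Av T S a b f g N x ^ 2 - (2 * c) * Av T S a b f g N x) + c ^ 2 := by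
        ext x; ring
      have i2 : Integrable (fun x => 2 * c * Av T S a b f g N x) μ := i0.const_mul (2 * c)
      have i3 : Integrable (fun x => Av T S a b f g N x ^ 2 - 2 * c * Av T S a b f g N x) μ :=
        i1.sub i2
      rw [e, integral_add i3 (integrable_const _), integral_sub i1 i2, integral_const_mul]
      simp
    simp_rw [h5]
    have h6 := ((h1.sub (h2.const_mul (2 * c))).add_const (c ^ 2))
    have h7 : c ^ 2 - 2 * c * c + c ^ 2 = 0 := by ring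
    rw [h7] at h6
    exact h6
  have h8 : Tendsto (fun N => ENNReal.ofReal (∫ x, (Av T S a b f g N x - c) ^ 2 ∂μ)) atTop (𝓝 0) := by
    have := (ENNReal.continuous_ofReal.tendsto 0).comp h4
    simpa [Function.comp_def] using this
  have h9 := (ENNReal.continuous_rpow_const (y := (1 / 2 : ℝ))).tendsto 0 |>.comp h8
  have h3 : (0 : ENNReal) ^ (1 / 2 : ℝ) = 0 := ENNReal.zero_rpow_of_pos (by norm_num)
  rw [h3] at h9
  exact h9

theorem conv_mix (hHZ : G_HZ) (hZP : G_ZP) (hVN : G_VN) (hEL : G_EL) (hE3 : G_E3) (hSEP : G_SEP)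
    {T S : α ≃ᵐ α} {a b : ℕ → ℕ} (hW : Wp a b) (ha : StrictMono a)
    (hb : StrictMono b) (hT : Ergodic (⇑T) μ) (hS : Ergodic (⇑S) μ) (hTS : ∀ x, T (S x) = S (T x))
    {f g : α → ℝ} (hf : Bd f) (hg : Bd g) (h : Mix4 μ T S f g) : Conv μ T S a b f g := by
  refine conv_of_var hT.toMeasurePreserving hS.toMeasurePreserving hf hg ?_ ?_
  · rw [mul_pow]
    exact sq_mix hSEP hW ha hb hf hg h
  · refine (hE3 hEL hHZ hZP hVN a b hW α μ T S hT hS hTS f g hf hg).congr fun N => ?_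
    unfold Av
    rw [integral_const_mul, integral_finsetSum]
    intro k _
    refine bd_int (f := fun x => f ((⇑T)^[a k] x) * g ((⇑S)^[b k] x))
      ⟨(hf.1.comp (T.measurable.iterate _)).mul (hg.1.comp (S.measurable.iterate _)), fun x => ?_⟩
    rw [abs_mul]
    exact mul_le_one₀ (hf.2 _) (abs_nonneg _) (hg.2 _)

theorem Mix4.scale {T S : α ≃ᵐ α} (hT : MeasurePreserving (⇑T) μ μ) (hS : MeasurePreserving (⇑S) μ μ)
    {f f' g g' : α → ℝ} {c d : ℝ} (hc : 0 < c) (hd : 0 < d) (hf : f =ᵐ[μ] fun x => c * f' x)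
    (hg : g =ᵐ[μ] fun x => d * g' x) (h : Mix4 μ T S f g) : Mix4 μ T S f' g' := by
  intro ε hε
  obtain ⟨D, hD⟩ := h (c ^ 2 * d ^ 2 * ε) (by positivity)
  refine ⟨D, fun i j p q h1 h2 h3 h4 h5 h6 h7 h8 h9 h10 => ?_⟩
  have k := hD i j p q h1 h2 h3 h4 h5 h6 h7 h8 h9 h10
  have e1 : ∫ x, f ((⇑T)^[i] x) * f ((⇑T)^[j] x) * (g ((⇑S)^[p] x) * g ((⇑S)^[q] x)) ∂μ =
      c ^ 2 * d ^ 2 *
        ∫ x, f' ((⇑T)^[i] x) * f' ((⇑T)^[j] x) * (g' ((⇑S)^[p] x) * g' ((⇑S)^[q] x)) ∂μ := by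
    rw [← integral_const_mul]
    refine integral_congr_ae ?_
    filter_upwards [ae_iter hT hf i, ae_iter hT hf j, ae_iter hS hg p, ae_iter hS hg q] with x a1 a2 a3 a4
    rw [a1, a2, a3, a4]; ring
  have e2 : ∫ x, f x ∂μ = c * ∫ x, f' x ∂μ := by rw [integral_congr_ae hf, integral_const_mul]
  have e3 : ∫ x, g x ∂μ = d * ∫ x, g' x ∂μ := by rw [integral_congr_ae hg, integral_const_mul]
  rw [e1, e2, e3] at k
  have e4 : ∀ u v w : ℝ, c ^ 2 * d ^ 2 * u - (c * v) ^ 2 * (d * w) ^ 2 =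
      c ^ 2 * d ^ 2 * (u - v ^ 2 * w ^ 2) := fun u v w => by ring
  rw [e4, abs_mul, abs_of_pos (by positivity : 0 < c ^ 2 * d ^ 2)] at k
  exact le_of_mul_le_mul_left k (by positivity)

end

/-- The condition on the functions, final form. -/
def AdmM {α : Type} [MeasurableSpace α] (μ : Measure α) (T S : α ≃ᵐ α) (f g : α → ℝ) : Prop :=
  Adm μ T S f g ∨ Mix4 μ T S f g

/-- The deterministic theorem. -/
theorem conv_allM (hcore : G_CORE) (hHZ : G_HZ) (hZP : G_ZP) (hVN : G_VN) (hEL : G_EL) (hE3 : G_E3)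
    (hWSY : G_WSY) (hFZ : G_FZ) (hKM : G_KM) (hREV : G_REV) (hAPX : G_APX) (hSEP : G_SEP)
    (hK22 : G_K22) (hK21 : G_K21) {α : Type} [MeasurableSpace α] {μ : Measure α}
    [IsProbabilityMeasure μ] {T S : α ≃ᵐ α} {a b : ℕ → ℕ} (hW : Wp a b) (ha : StrictMono a)
    (hb : StrictMono b) (hT : Ergodic (⇑T) μ) (hS : Ergodic (⇑S) μ) (hTS : ∀ x, T (S x) = S (T x))
    {f g : α → ℝ} (hf : MemLp f ⊤ μ) (hg : MemLp g ⊤ μ) (h : AdmM μ T S f g) :
    Conv μ T S a b f g := by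
  rcases h with h | h
  · exact conv_all hcore hHZ hZP hVN hEL hWSY hFZ hKM hREV hAPX hSEP hK22 hK21 hW ha hb hT hS hTS hf hg h
  · have hmT := hT.toMeasurePreserving
    have hmS := hS.toMeasurePreserving
    obtain ⟨c, f', hc, hf', hfe⟩ := exists_bd hf
    obtain ⟨d, g', hd, hg', hge⟩ := exists_bd hg
    exact conv_scale hmT hmS hfe hge (conv_mix hHZ hZP hVN hEL hE3 hSEP hW ha hb hT hS hTS hf' hg'
      (h.scale hmT hmS hc hd hfe hge))

end Pool.Agent.Helper57.SS
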