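import Pool.Agent.Helper57.SS.Core

/-!
# Project SS: calculus of the convergence statement
-/

set_option autoImplicit false

namespace Pool.Agent.Helper57.SS

open MeasureTheory Filter Topology

section
variable {α : Type} [MeasurableSpace α]

/-- Convergence of the averages to the product of the integrals. -/
def Conv (μ : Measure α) (T S : α ≃ᵐ α) (a b : ℕ → ℕ) (f g : α → ℝ) : Prop :=
  Tendsto (fun N : ℕ => eLpNorm (fun x => Av T S a b f g N x - (∫ y, f y ∂μ) * ∫ y, g y ∂μ) 2 μ)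
    atTop (𝓝 0)

theorem Av_swap (T S : α ≃ᵐ α) (a b : ℕ → ℕ) (f g : α → ℝ) (N : ℕ) (x : α) :
    Av T S a b f g N x = Av S T b a g f N x := by
  unfold Av
  congr 1
  exact Finset.sum_congr rfl fun k _ => mul_comm _ _

theorem Conv.swap {μ : Measure α} {T S : α ≃ᵐ α} {a b : ℕ → ℕ} {f g : α → ℝ}
    (h : Conv μ T S a b f g) : Conv μ S T b a g f := by
  unfold Conv at h ⊢
  refine h.congr fun N => ?_
  congr 1
  ext x
  rw [Av_swap T S a b f g N x, mul_comm]

variable {μ : Measure α} [IsProbabilityMeasure μ] {T S : α ≃ᵐ α} {a b : ℕ → ℕ}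

theorem ae_iter (hT : MeasurePreserving (⇑T) μ μ) {f f' : α → ℝ} (h : f =ᵐ[μ] f') (n : ℕ) :
    (fun x => f ((⇑T)^[n] x)) =ᵐ[μ] fun x => f' ((⇑T)^[n] x) :=
  (hT.iterate n).quasiMeasurePreserving.ae_eq h

theorem Av_congr (hT : MeasurePreserving (⇑T) μ μ) (hS : MeasurePreserving (⇑S) μ μ)
    {f f' g g' : α → ℝ} (hf : f =ᵐ[μ] f') (hg : g =ᵐ[μ] g') (N : ℕ) :
    (fun x => Av T S a b f g N x) =ᵐ[μ] fun x => Av T S a b f' g' N x := by
  have h1 : ∀ᵐ x ∂μ, ∀ n : ℕ, f ((⇑T)^[n] x) = f' ((⇑T)^[n] x) := ae_all_iff.2 fun n => ae_iter hT hf n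
  have h2 : ∀ᵐ x ∂μ, ∀ n : ℕ, g ((⇑S)^[n] x) = g' ((⇑S)^[n] x) := ae_all_iff.2 fun n => ae_iter hS hg n
  filter_upwards [h1, h2] with x h1 h2
  unfold Av
  congr 1
  exact Finset.sum_congr rfl fun k _ => by rw [h1, h2]

theorem Conv.congr (hT : MeasurePreserving (⇑T) μ μ) (hS : MeasurePreserving (⇑S) μ μ)
    {f f' g g' : α → ℝ} (hf : f =ᵐ[μ] f') (hg : g =ᵐ[μ] g') (h : Conv μ T S a b f g) :
    Conv μ T S a b f' g' := by
  unfold Conv at h ⊢
  refine h.congr fun N => ?_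
  refine eLpNorm_congr_ae ?_
  filter_upwards [Av_congr (a := a) (b := b) hT hS hf hg N] with x hx
  rw [hx, integral_congr_ae hf, integral_congr_ae hg]

theorem Conv.smul {f g : α → ℝ} (h : Conv μ T S a b f g) (c d : ℝ) :
    Conv μ T S a b (fun x => c * f x) (fun x => d * g x) := by
  unfold Conv at h ⊢
  have e : ∀ N : ℕ, eLpNorm (fun x => Av T S a b (fun x => c * f x) (fun x => d * g x) N x -
      (∫ y, c * f y ∂μ) * ∫ y, d * g y ∂μ) 2 μ =
      ‖c * d‖ₑ * eLpNorm (fun x => Av T S a b f g N x - (∫ y, f y ∂μ) * ∫ y, g y ∂μ) 2 μ := by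
    intro N
    rw [← eLpNorm_const_smul]
    congr 1
    ext x
    rw [integral_const_mul, integral_const_mul]
    simp only [Av, Pi.smul_apply, smul_eq_mul]
    have : ∑ k ∈ Finset.range N, c * f ((⇑T)^[a k] x) * (d * g ((⇑S)^[b k] x)) =
        c * d * ∑ k ∈ Finset.range N, f ((⇑T)^[a k] x) * g ((⇑S)^[b k] x) := by
      rw [Finset.mul_sum]
      exact Finset.sum_congr rfl fun k _ => by ring
    rw [this]; ring
  simp_rw [e]
  have := ENNReal.Tendsto.const_mul (a := ‖c * d‖ₑ) h (Or.inr enorm_ne_top)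
  simpa using this

theorem aesm_Av (hT : MeasurePreserving (⇑T) μ μ) (hS : MeasurePreserving (⇑S) μ μ)
    {f g : α → ℝ} (hf : AEStronglyMeasurable f μ) (hg : AEStronglyMeasurable g μ) (N : ℕ) :
    AEStronglyMeasurable (fun x => Av T S a b f g N x) μ := by
  unfold Av
  refine AEStronglyMeasurable.const_mul ?_ _
  refine Finset.aestronglyMeasurable_fun_sum _ fun k _ => ?_
  exact (hf.comp_measurePreserving (hT.iterate _)).mul (hg.comp_measurePreserving (hS.iterate _))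

theorem Conv.add (hT : MeasurePreserving (⇑T) μ μ) (hS : MeasurePreserving (⇑S) μ μ)
    {f f' g : α → ℝ} (hf : Integrable f μ) (hf' : Integrable f' μ) (hg : AEStronglyMeasurable g μ)
    (h : Conv μ T S a b f g) (h' : Conv μ T S a b f' g) :
    Conv μ T S a b (fun x => f x + f' x) g := by
  unfold Conv at h h' ⊢
  have hs := h.add h'
  rw [add_zero] at hs
  refine tendsto_of_tendsto_of_tendsto_of_le_of_le tendsto_const_nhds hs (fun _ => bot_le)
    fun N => ?_
  have e : (fun x => Av T S a b (fun x => f x + f' x) g N x - (∫ y, (f y + f' y) ∂μ) * ∫ y, g y ∂μ) =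
      (fun x => Av T S a b f g N x - (∫ y, f y ∂μ) * ∫ y, g y ∂μ) +
      (fun x => Av T S a b f' g N x - (∫ y, f' y ∂μ) * ∫ y, g y ∂μ) := by
    ext x
    rw [integral_add hf hf']
    simp only [Av, Pi.add_apply]
    have : ∑ k ∈ Finset.range N, (f ((⇑T)^[a k] x) + f' ((⇑T)^[a k] x)) * g ((⇑S)^[b k] x) =
        ∑ k ∈ Finset.range N, f ((⇑T)^[a k] x) * g ((⇑S)^[b k] x) +
        ∑ k ∈ Finset.range N, f' ((⇑T)^[a k] x) * g ((⇑S)^[b k] x) := by
      rw [← Finset.sum_add_distrib]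
      exact Finset.sum_congr rfl fun k _ => by ring
    rw [this]; ring
  show eLpNorm _ 2 μ ≤ _
  rw [e]
  exact eLpNorm_add_le ((aesm_Av hT hS hf.1 hg N).sub aestronglyMeasurable_const)
    ((aesm_Av hT hS hf'.1 hg N).sub aestronglyMeasurable_const) (by norm_num)

theorem Conv.add' (hT : MeasurePreserving (⇑T) μ μ) (hS : MeasurePreserving (⇑S) μ μ)
    {f g g' : α → ℝ} (hg : Integrable g μ) (hg' : Integrable g' μ) (hf : AEStronglyMeasurable f μ)
    (h : Conv μ T S a b f g) (h' : Conv μ T S a b f g') :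
    Conv μ T S a b f (fun x => g x + g' x) :=
  (Conv.add hS hT hg hg' hf h.swap h'.swap).swap

/-- from the second moment -/
theorem conv_of_sq (hT : MeasurePreserving (⇑T) μ μ) (hS : MeasurePreserving (⇑S) μ μ) {f g : α → ℝ}
    (hf : Bd f) (hg : Bd g) (h0 : (∫ y, f y ∂μ) * ∫ y, g y ∂μ = 0)
    (h : Tendsto (fun N => ∫ x, (Av T S a b f g N x) ^ 2 ∂μ) atTop (𝓝 0)) : Conv μ T S a b f g := by
  unfold Conv
  rw [h0]
  have hb : ∀ N x, |Av T S a b f g N x| ≤ 1 := by
    intro N x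
    unfold Av
    rcases Nat.eq_zero_or_pos N with rfl | hN
    · simp
    · rw [abs_mul, abs_inv, Nat.abs_cast, inv_mul_le_iff₀ (by exact_mod_cast hN), mul_one]
      refine (Finset.abs_sum_le_sum_abs _ _).trans ?_
      calc ∑ k ∈ Finset.range N, |f ((⇑T)^[a k] x) * g ((⇑S)^[b k] x)| ≤
          ∑ k ∈ Finset.range N, (1 : ℝ) := by
            refine Finset.sum_le_sum fun k _ => ?_
            rw [abs_mul]
            exact mul_le_one₀ (hf.2 _) (abs_nonneg _) (hg.2 _)
        _ = N := by simp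
  have hm : ∀ N, AEStronglyMeasurable (fun x => Av T S a b f g N x) μ := fun N =>
    aesm_Av hT hS hf.1.aestronglyMeasurable hg.1.aestronglyMeasurable N
  have e : ∀ N : ℕ, eLpNorm (fun x => Av T S a b f g N x - 0) 2 μ =
      ENNReal.ofReal (∫ x, (Av T S a b f g N x) ^ 2 ∂μ) ^ (1 / 2 : ℝ) := by
    intro N
    simp only [sub_zero]
    have hL : MemLp (fun x => Av T S a b f g N x) 2 μ :=
      MemLp.of_bound (hm N) 1 (Eventually.of_forall fun x => by rw [Real.norm_eq_abs]; exact hb N x)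
    rw [hL.eLpNorm_eq_integral_rpow_norm (by norm_num) (by norm_num)]
    have e2 : (2 : ENNReal).toReal = 2 := by norm_num
    rw [e2]
    have e3 : ∫ x, ‖Av T S a b f g N x‖ ^ (2 : ℝ) ∂μ = ∫ x, (Av T S a b f g N x) ^ 2 ∂μ := by
      refine integral_congr_ae (Eventually.of_forall fun x => ?_)
      show ‖Av T S a b f g N x‖ ^ (2 : ℝ) = (Av T S a b f g N x) ^ 2
      rw [Real.norm_eq_abs, Real.rpow_two, sq_abs]
    rw [e3, ENNReal.ofReal_rpow_of_nonneg (integral_nonneg fun x => sq_nonneg _) (by norm_num)]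
    norm_num
  simp_rw [e]
  have h1 : Tendsto (fun N => ENNReal.ofReal (∫ x, (Av T S a b f g N x) ^ 2 ∂μ)) atTop (𝓝 0) := by
    have := (ENNReal.continuous_ofReal.tendsto 0).comp h
    simpa [Function.comp_def] using this
  have h2 := (ENNReal.continuous_rpow_const (y := (1 / 2 : ℝ))).tendsto 0 |>.comp h1
  have h3 : (0 : ENNReal) ^ (1 / 2 : ℝ) = 0 := ENNReal.zero_rpow_of_pos (by norm_num)
  rw [h3] at h2
  exact h2

end

end Pool.Agent.Helper57.SS
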