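import Pool.Agent.Helper57.SS.Goals

/-!
# Project SS: assembly of the core theorem
-/

set_option autoImplicit false

namespace Pool.Agent.Helper57.SS

open MeasureTheory Filter Topology
open scoped ComplexConjugate

/-- The core theorem. -/
def G_CORE : Prop := ∀ (α : Type) [MeasurableSpace α] (μ : Measure α) [IsProbabilityMeasure μ]
  (T S R : α ≃ᵐ α) (a b : ℕ → ℕ) (f g : α → ℝ) (σ : Measure Ci), Wp a b → Sys μ T S R → Bd f → Bd g →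
  IsSpec (⇑R) μ f σ → σ ⟂ₘ volume → ((∀ z, σ {z} = 0) ∨ (R = T ∧ ∫ x, g x ∂μ = 0)) →
  Tendsto (fun N => ∫ x, (Av T S a b f g N x) ^ 2 ∂μ) atTop (𝓝 0)

theorem core (hMM : G_MM) (hHZ : G_HZ) (hHZ1 : G_HZ1) (hZP : G_ZP) (hVN : G_VN) (hVNT : G_VNT)
    (hEL : G_EL) (hELT : G_ELT) (hWSY : G_WSY) (hE3 : G_E3) (hE1 : G_E1) (hSPZ : G_SPZ) (hRPD : G_RPD)
    (hFORM : G_FORM) (hLF1 : G_LF1) (hLF2 : G_LF2) (hLF3 : G_LF3) (hLF5 : G_LF5) (hLF6 : G_LF6)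
    (hLF7 : G_LF7) : G_CORE := by
  intro α _ μ _ T S R a b f g σ hW hs hf hg hσ hsing hat
  by_contra hcon
  obtain ⟨U, Nj, h, φ, r, L, h0⟩ := hLF6 hZP hRPD α μ T S R a b f g hW hs hf hg hcon
  obtain ⟨hr1, hr2⟩ := hLF7 hRPD hZP α μ T S R a b f g U Nj h φ r L
  obtain ⟨σ3, hσ3f, hσ3⟩ := hHZ1 hHZ r hr1 hr2
  obtain ⟨hg1, _, hg3⟩ := hRPD hZP α μ R hs.mR g hg
  obtain ⟨σ2, hσ2f, hσ2⟩ := hHZ1 hHZ (rr R μ g) hg1 hg3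
  haveI := hσ.1
  have hσ1 := hSPZ hZP α μ R hs.mR f hf σ hσ
  have b1 : ∀ c : (ℤ × ℤ) →₀ ℂ, ‖c.sum fun p u => u * ((φ p : ℝ) : ℂ)‖ ^ 2 ≤
      1 * ∫ z, ‖c.sum fun p u => u * e2 p z‖ ^ 2 ∂(σ.prod σ2) := by
    intro c
    rw [one_mul]
    refine (hLF1 hE3 hEL hHZ hZP hVN α μ T S R a b f g U Nj h φ r L c).trans (le_of_eq ?_)
    exact hFORM σ σ2 (rr R μ f) (rr R μ g) hσ1 hσ2 (fun p => p.1) (fun p => p.2) c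
  have b2 : ∀ c : (ℤ × ℤ) →₀ ℂ, ‖c.sum fun p u => u * ((φ p : ℝ) : ℂ)‖ ^ 2 ≤
      1 * ∫ z, ‖c.sum fun p u => u * e2 (p.1 - p.2, p.2) z‖ ^ 2 ∂(σ.prod σ3) := by
    intro c
    rw [one_mul]
    refine (hLF2 hE1 hEL hHZ hZP hVN hRPD α μ T S R a b f g U Nj h φ r L c).trans (le_of_eq ?_)
    exact hFORM σ σ3 (rr R μ f) r hσ1 hσ3 (fun p => p.1 - p.2) (fun p => p.2) c
  have b3 : ∀ c : (ℤ × ℤ) →₀ ℂ, ‖c.sum fun p u => u * ((φ p : ℝ) : ℂ)‖ ^ 2 ≤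
      1 * ∫ z, ‖c.sum fun p u => u * e2 (p.2 - p.1, p.1) z‖ ^ 2 ∂(σ2.prod σ3) := by
    intro c
    rw [one_mul]
    refine (hLF3 hE1 hEL hHZ hZP hVN hRPD hWSY α μ T S R a b f g U Nj h φ r L c).trans (le_of_eq ?_)
    exact hFORM σ2 σ3 (rr R μ g) r hσ2 hσ3 (fun p => p.2 - p.1) (fun p => p.1) c
  have hat' : ∀ θ : Ci, σ {θ} = 0 ∨ ∀ n : ℤ, Tendsto (fun M : ℕ => (M : ℂ)⁻¹ *
      ∑ m ∈ Finset.range M, fourier (-(m : ℤ)) θ * ((φ ((m : ℤ), n) : ℝ) : ℂ)) atTop (𝓝 0) := by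
    intro θ
    rcases hat with hat | ⟨hRT, hg0⟩
    · exact Or.inl (hat θ)
    · right
      intro n
      subst hRT
      exact hLF5 hELT hHZ hHZ1 hZP hVN hVNT α μ R S a b f g U Nj h φ r L hg0 θ n
  have hz := hMM σ σ2 σ3 (fun p => ((φ p : ℝ) : ℂ)) 1 b1 b2 b3 hsing hat' 0
  have hz' : φ 0 = 0 := by exact_mod_cast hz
  linarith

end Pool.Agent.Helper57.SS
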