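import Mathlib

/-!
# Project SS (MP_9a4587_an): double ergodic averages along random sparse sequences, all exponents
`a, b ∈ (0,1)`, functions with singular spectral measure.  Definitions.
-/

set_option autoImplicit false

namespace Pool.Agent.Helper57.SS

open MeasureTheory Filter Topology

/-- The circle. -/
abbrev Ci := UnitAddCircle

/-- The characters of the torus `Ci × Ci`. -/
noncomputable def e2 (p : ℤ × ℤ) (z : Ci × Ci) : ℂ := fourier p.1 z.1 * fourier p.2 z.2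

/-- The pairs `(a k, b k)` are equidistributed: all averages of nontrivial characters tend to `0`. -/
def Wp (a b : ℕ → ℕ) : Prop := ∀ z : Ci × Ci, z ≠ 0 →
  Tendsto (fun N : ℕ => (N : ℂ)⁻¹ * ∑ k ∈ Finset.range N, e2 ((a k : ℤ), (b k : ℤ)) z) atTop (𝓝 0)

/-- Integer powers of an invertible map. -/
def zp {α : Type*} [MeasurableSpace α] (R : α ≃ᵐ α) : ℤ → α → α
  | Int.ofNat n => (⇑R)^[n]
  | Int.negSucc n => (⇑R.symm)^[n + 1]

/-- The translations which move the measure `ν` by at most `ε`. -/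
def Sh (ν : Measure Ci) (ε : ℝ) : Set Ci :=
  {d | ∀ A : Set Ci, MeasurableSet A → ν.real ((fun x => x + d) ⁻¹' A) ≤ ν.real A + ε}

section
variable {α : Type*} [MeasurableSpace α]

/-- Measurable functions bounded by `1`. -/
def Bd (f : α → ℝ) : Prop := Measurable f ∧ ∀ x, |f x| ≤ 1

/-- Autocorrelations. -/
noncomputable def rr (R : α ≃ᵐ α) (μ : Measure α) (f : α → ℝ) (m : ℤ) : ℝ :=
  ∫ x, f (zp R m x) * f x ∂μ

/-- The averages. -/
noncomputable def Av (T S : α ≃ᵐ α) (a b : ℕ → ℕ) (f g : α → ℝ) (N : ℕ) (x : α) : ℝ :=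
  (N : ℝ)⁻¹ * ∑ k ∈ Finset.range N, f ((⇑T)^[a k] x) * g ((⇑S)^[b k] x)

/-- `(1/N) ∑_k ∫ h · f∘R^m∘T^(a k) · g∘R^n∘S^(b k)`, `p = (m,n)`. -/
noncomputable def PhN (T S R : α ≃ᵐ α) (μ : Measure α) (a b : ℕ → ℕ) (f g h : α → ℝ) (N : ℕ)
    (p : ℤ × ℤ) : ℝ :=
  (N : ℝ)⁻¹ * ∑ k ∈ Finset.range N,
    ∫ x, h x * f (zp R p.1 ((⇑T)^[a k] x)) * g (zp R p.2 ((⇑S)^[b k] x)) ∂μ

/-- `T`, `S` ergodic, `R` measure preserving, all commute. -/
structure Sys (μ : Measure α) (T S R : α ≃ᵐ α) : Prop where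
  eT : Ergodic (⇑T) μ
  eS : Ergodic (⇑S) μ
  mR : MeasurePreserving (⇑R) μ μ
  cTS : ∀ x, T (S x) = S (T x)
  cRT : ∀ x, R (T x) = T (R x)
  cRS : ∀ x, R (S x) = S (R x)

/-- `σ` is the spectral measure of the real function `f` for the map `R`. -/
def IsSpec (R : α → α) (μ : Measure α) (f : α → ℝ) (σ : Measure Ci) : Prop :=
  IsFiniteMeasure σ ∧ ∀ n : ℕ, ∫ z, fourier (n : ℤ) z ∂σ = ((∫ x, f (R^[n] x) * f x ∂μ : ℝ) : ℂ)

/-- The spectral measure of `f` is singular (with respect to Lebesgue measure of the circle). -/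
def SingSpec (R : α → α) (μ : Measure α) (f : α → ℝ) : Prop :=
  ∃ σ : Measure Ci, IsSpec R μ f σ ∧ σ ⟂ₘ volume

/-- The spectral measure of `f` is singular and has no atoms. -/
def ContSing (R : α → α) (μ : Measure α) (f : α → ℝ) : Prop :=
  ∃ σ : Measure Ci, IsSpec R μ f σ ∧ σ ⟂ₘ volume ∧ ∀ z, σ {z} = 0

/-- A limit of the functionals `PhN` along an ultrafilter: `h j` bounded by `1`, `Nj → ∞`,
`φ = lim PhN (h j) (Nj j)`, `r = lim` of the autocorrelations of `h j`. -/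
structure LimF (μ : Measure α) (T S R : α ≃ᵐ α) (a b : ℕ → ℕ) (f g : α → ℝ) (U : Ultrafilter ℕ)
    (Nj : ℕ → ℕ) (h : ℕ → α → ℝ) (φ : ℤ × ℤ → ℝ) (r : ℤ → ℝ) : Prop where
  hW : Wp a b
  hs : Sys μ T S R
  hf : Bd f
  hg : Bd g
  hN : Tendsto Nj U atTop
  hh : ∀ j, Bd (h j)
  hφ : ∀ p, Tendsto (fun j => PhN T S R μ a b f g (h j) (Nj j) p) U (𝓝 (φ p))
  hr : ∀ k, Tendsto (fun j => rr R μ (h j) k) U (𝓝 (r k))

end

end Pool.Agent.Helper57.SS
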