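import Pool.Agent.Helper57.SS.Conv

/-!
# Project SS: from the core theorem to the final statement
-/

set_option autoImplicit false

namespace Pool.Agent.Helper57.SS

open MeasureTheory Filter Topology

/-- The spectral measure of the conditional expectation of `f` on the tail σ-algebra of some
exhausting decreasing filtration of `T` is singular. -/
def TailSing {α : Type} [m0 : MeasurableSpace α] (μ : Measure α) (T : α ≃ᵐ α) (f : α → ℝ) : Prop :=
  ∃ A : MeasurableSpace α, @Exh α A m0 T ∧ @SingSpec α m0 (⇑T) μ (μ[f | @Tl α A m0 T])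

/-- The condition on the functions. -/
def Adm {α : Type} [MeasurableSpace α] (μ : Measure α) (T S : α ≃ᵐ α) (f g : α → ℝ) : Prop :=
  SingSpec (⇑T) μ f ∨ SingSpec (⇑S) μ g ∨
  (∃ R : α ≃ᵐ α, MeasurePreserving (⇑R) μ μ ∧ (∀ x, R (T x) = T (R x)) ∧ (∀ x, R (S x) = S (R x)) ∧
     (ContSing (⇑R) μ f ∨ ContSing (⇑R) μ g)) ∨
  (T = S ∧ (TailSing μ T f ∨ TailSing μ T g))

section
variable {α : Type} [MeasurableSpace α] {μ : Measure α} [IsProbabilityMeasure μ]

theorem refl_iter (n : ℕ) (x : α) : (⇑(MeasurableEquiv.refl α))^[n] x = x := by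
  induction n with
  | zero => rfl
  | succ n ih => rw [Function.iterate_succ_apply]; exact ih

theorem conv_const (hHZ : G_HZ) (hZP : G_ZP) (hVN : G_VN) (hEL : G_EL) {T S : α ≃ᵐ α} {a b : ℕ → ℕ}
    (hW : Wp a b) (hT : Ergodic (⇑T) μ) {f : α → ℝ} (hf : MemLp f 2 μ) (c : ℝ) :
    Conv μ T S a b f (fun _ => c) := by
  have h := hEL hHZ hZP hVN a b hW α μ T (MeasurableEquiv.refl α) hT (MeasurePreserving.id μ)
    (fun x => rfl) f hf
  have h1 : Conv μ T S a b f (fun _ => (1 : ℝ)) := by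
    unfold Conv
    refine h.congr fun N => ?_
    congr 1
    ext x
    simp only [Av, refl_iter, mul_one, integral_const, probReal_univ, smul_eq_mul]
  have h2 := h1.smul 1 c
  simpa using h2

theorem bd_memLp {f : α → ℝ} (hf : Bd f) (p : ENNReal) : MemLp f p μ :=
  MemLp.of_bound hf.1.aestronglyMeasurable 1 (Eventually.of_forall fun x => by
    rw [Real.norm_eq_abs]; exact hf.2 x)

theorem bd_int {f : α → ℝ} (hf : Bd f) : Integrable f μ := memLp_one_iff_integrable.1 (bd_memLp hf 1)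

theorem abs_int_le {f : α → ℝ} (hf : Bd f) : |∫ x, f x ∂μ| ≤ 1 := by
  have h := norm_integral_le_of_norm_le_const (μ := μ) (f := f) (C := 1)
    (Eventually.of_forall fun x => by rw [Real.norm_eq_abs]; exact hf.2 x)
  simpa using h

theorem conv_single (hcore : G_CORE) (hHZ : G_HZ) (hZP : G_ZP) (hVN : G_VN) (hEL : G_EL)
    {T S : α ≃ᵐ α} {a b : ℕ → ℕ} (hW : Wp a b) (hT : Ergodic (⇑T) μ) (hS : Ergodic (⇑S) μ)
    (hTS : ∀ x, T (S x) = S (T x)) {f g : α → ℝ}
    (hf : Bd f) (hg : Bd g) (h : SingSpec (⇑T) μ f) : Conv μ T S a b f g := by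
  obtain ⟨σ, hσ, hsing⟩ := h
  set c := ∫ x, g x ∂μ with hc
  have hc1 : |c| ≤ 1 := abs_int_le hg
  set g0 : α → ℝ := fun x => (g x - c) / 2 with hg0
  have hb0 : Bd g0 := by
    refine ⟨(hg.1.sub_const c).div_const 2, fun x => ?_⟩
    rw [hg0]
    simp only
    have h1 := abs_le.1 (hg.2 x)
    have h2 := abs_le.1 hc1
    rw [abs_le]
    constructor <;> linarith [h1.1, h1.2, h2.1, h2.2]
  have hi0 : ∫ x, g0 x ∂μ = 0 := by
    rw [hg0]
    simp only
    rw [integral_div, integral_sub (bd_int hg) (integrable_const c)]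
    simp [← hc]
  have hsys : Sys μ T S T := ⟨hT, hS, hT.toMeasurePreserving, hTS, fun x => rfl, hTS⟩
  have h1 := hcore α μ T S T a b f g0 σ hW hsys hf hb0 hσ hsing (Or.inr ⟨rfl, hi0⟩)
  have h2 : Conv μ T S a b f g0 := conv_of_sq hT.toMeasurePreserving hS.toMeasurePreserving hf hb0
    (by rw [hi0, mul_zero]) h1
  have h3 := h2.smul 1 2
  have h4 := conv_const (S := S) hHZ hZP hVN hEL hW hT (bd_memLp hf 2) c
  have h5 : Conv μ T S a b f (fun x => 2 * g0 x + c) := by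
    refine Conv.add' hT.toMeasurePreserving hS.toMeasurePreserving ((bd_int hb0).const_mul 2)
      (integrable_const c) hf.1.aestronglyMeasurable ?_ h4
    simpa using h3
  have h6 : (fun x => 2 * g0 x + c) = g := by
    ext x
    rw [hg0]; simp only; ring
  rwa [h6] at h5

theorem int_Av_one {T S : α ≃ᵐ α} {a b : ℕ → ℕ} (hT : MeasurePreserving (⇑T) μ μ) {f : α → ℝ}
    (hf : Bd f) {N : ℕ} (hN : 0 < N) : ∫ x, Av T S a b f (fun _ => 1) N x ∂μ = ∫ x, f x ∂μ := by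
  unfold Av
  simp only [mul_one]
  rw [integral_const_mul, integral_finsetSum]
  · have : ∀ k ∈ Finset.range N, ∫ x, f ((⇑T)^[a k] x) ∂μ = ∫ x, f x ∂μ := by
      intro k _
      have h := (hT.iterate (a k))
      have h2 := integral_map (μ := μ) h.measurable.aemeasurable (f := f)
        (by rw [h.map_eq]; exact hf.1.aestronglyMeasurable)
      rw [h.map_eq] at h2
      exact h2.symm
    rw [Finset.sum_congr rfl this]
    rw [Finset.sum_const, Finset.card_range, nsmul_eq_mul]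
    field_simp
  · intro k _
    exact (hT.iterate (a k)).integrable_comp_of_integrable (bd_int hf)

theorem conv_cont (hcore : G_CORE) {T S R : α ≃ᵐ α} {a b : ℕ → ℕ} (hW : Wp a b) (hs : Sys μ T S R)
    {f g : α → ℝ} (hf : Bd f) (hg : Bd g) (h : ContSing (⇑R) μ f) : Conv μ T S a b f g := by
  obtain ⟨σ, hσ, hsing, hat⟩ := h
  have h1 := hcore α μ T S R a b f g σ hW hs hf hg hσ hsing (Or.inl hat)
  have hb1 : Bd (fun _ : α => (1 : ℝ)) := ⟨measurable_const, fun _ => by simp⟩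
  have h2 := hcore α μ T S R a b f (fun _ => 1) σ hW hs hf hb1 hσ hsing (Or.inl hat)
  have h3 : ∫ x, f x ∂μ = 0 := by
    have h4 : ∀ᶠ N : ℕ in atTop, (∫ x, f x ∂μ) ^ 2 ≤ ∫ x, (Av T S a b f (fun _ => 1) N x) ^ 2 ∂μ := by
      filter_upwards [eventually_gt_atTop 0] with N hN
      set u : α → ℝ := fun x => Av T S a b f (fun _ => 1) N x with hu
      have hi : ∫ x, u x ∂μ = ∫ x, f x ∂μ := int_Av_one hs.eT.toMeasurePreserving hf hN
      have hum : AEStronglyMeasurable u μ := aesm_Av hs.eT.toMeasurePreserving hs.eS.toMeasurePreserving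
        hf.1.aestronglyMeasurable hb1.1.aestronglyMeasurable N
      have hub : ∀ x, |u x| ≤ 1 := by
        intro x
        rw [hu]
        unfold Av
        simp only [mul_one]
        rw [abs_mul, abs_inv, Nat.abs_cast, inv_mul_le_iff₀ (by exact_mod_cast hN), mul_one]
        refine (Finset.abs_sum_le_sum_abs _ _).trans ?_
        calc ∑ k ∈ Finset.range N, |f ((⇑T)^[a k] x)| ≤ ∑ k ∈ Finset.range N, (1 : ℝ) :=
              Finset.sum_le_sum fun k _ => hf.2 _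
          _ = N := by simp
      have hu1 : Integrable u μ := memLp_one_iff_integrable.1 (MemLp.of_bound hum 1
        (Eventually.of_forall fun x => by rw [Real.norm_eq_abs]; exact hub x))
      have hu2 : Integrable (fun x => u x ^ 2) μ := by
        refine memLp_one_iff_integrable.1 (MemLp.of_bound (hum.pow 2) 1
          (Eventually.of_forall fun x => ?_))
        rw [Real.norm_eq_abs]
        show |u x ^ 2| ≤ 1
        rw [abs_pow]
        exact pow_le_one₀ (abs_nonneg _) (hub x)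
      have h5 : 0 ≤ ∫ x, (u x - ∫ y, u y ∂μ) ^ 2 ∂μ := integral_nonneg fun x => sq_nonneg _
      have h6 : ∫ x, (u x - ∫ y, u y ∂μ) ^ 2 ∂μ = ∫ x, u x ^ 2 ∂μ - (∫ y, u y ∂μ) ^ 2 := by
        set m := ∫ y, u y ∂μ with hm
        have e : (fun x => (u x - m) ^ 2) = fun x => (u x ^ 2 - (2 * m) * u x) + m ^ 2 := by
          ext x; ring
        have i1 : Integrable (fun x => 2 * m * u x) μ := hu1.const_mul (2 * m)
        have i2 : Integrable (fun x => u x ^ 2 - 2 * m * u x) μ := hu2.sub i1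
        rw [e, integral_add i2 (integrable_const _), integral_sub hu2 i1, integral_const_mul]
        simp only [integral_const, probReal_univ, smul_eq_mul, one_mul]
        rw [← hm]; ring
      rw [hi] at h5 h6
      linarith
    have h7 : (∫ x, f x ∂μ) ^ 2 ≤ 0 := ge_of_tendsto h2 h4
    nlinarith [sq_nonneg (∫ x, f x ∂μ)]
  exact conv_of_sq hs.eT.toMeasurePreserving hs.eS.toMeasurePreserving hf hg (by rw [h3, zero_mul]) h1


theorem conv_bd (hcore : G_CORE) (hHZ : G_HZ) (hZP : G_ZP) (hVN : G_VN) (hEL : G_EL) (hWSY : G_WSY)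
    {T S : α ≃ᵐ α} {a b : ℕ → ℕ} (hW : Wp a b) (hT : Ergodic (⇑T) μ) (hS : Ergodic (⇑S) μ)
    (hTS : ∀ x, T (S x) = S (T x)) {f g : α → ℝ} (hf : Bd f) (hg : Bd g)
    (h : SingSpec (⇑T) μ f ∨ SingSpec (⇑S) μ g ∨
      (∃ R : α ≃ᵐ α, MeasurePreserving (⇑R) μ μ ∧ (∀ x, R (T x) = T (R x)) ∧
        (∀ x, R (S x) = S (R x)) ∧ (ContSing (⇑R) μ f ∨ ContSing (⇑R) μ g))) :
    Conv μ T S a b f g := by
  rcases h with h | h | ⟨R, hR, hRT, hRS, h | h⟩
  · exact conv_single hcore hHZ hZP hVN hEL hW hT hS hTS hf hg h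
  · exact (conv_single hcore hHZ hZP hVN hEL (hWSY a b hW) hS hT (fun x => (hTS x).symm) hg hf h).swap
  · exact conv_cont hcore hW ⟨hT, hS, hR, hTS, hRT, hRS⟩ hf hg h
  · exact (conv_cont hcore (hWSY a b hW) ⟨hS, hT, hR, fun x => (hTS x).symm, hRS, hRT⟩ hg hf h).swap

/-! ### Scaling -/

theorem exists_bd {f : α → ℝ} (hf : MemLp f ⊤ μ) :
    ∃ (c : ℝ) (f' : α → ℝ), 0 < c ∧ Bd f' ∧ f =ᵐ[μ] fun x => c * f' x := by
  obtain ⟨hm, hb⟩ := hf
  have hb' : eLpNormEssSup f μ < ⊤ := by simpa [eLpNorm_exponent_top] using hb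
  set C : ℝ := (eLpNormEssSup f μ).toReal + 1 with hC
  have hC0 : 0 < C := by positivity
  refine ⟨C, fun x => max (-1) (min 1 (hm.mk f x / C)), hC0, ⟨?_, ?_⟩, ?_⟩
  · exact measurable_const.max (measurable_const.min (hm.stronglyMeasurable_mk.measurable.div_const C))
  · intro x
    rw [abs_le]
    exact ⟨le_max_left _ _, max_le (by norm_num) (min_le_left _ _)⟩
  · filter_upwards [hm.ae_eq_mk, ae_le_eLpNormEssSup (f := f) (μ := μ)] with x h1 h2
    rw [← h1]
    have h3 : |f x| ≤ C := by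
      have h4 : ‖f x‖ₑ.toReal ≤ (eLpNormEssSup f μ).toReal := ENNReal.toReal_mono hb'.ne h2
      rw [toReal_enorm, Real.norm_eq_abs] at h4
      linarith
    have h4 : |f x / C| ≤ 1 := by
      rw [abs_div, abs_of_pos hC0, div_le_one hC0]; exact h3
    rw [abs_le] at h4
    rw [min_eq_right h4.2, max_eq_right h4.1]
    field_simp

theorem IsSpec.scale {R : α → α} (hR : MeasurePreserving R μ μ) {f f' : α → ℝ} {c : ℝ} (hc : 0 < c)
    (h : f =ᵐ[μ] fun x => c * f' x) {σ : Measure Ci} (hσ : IsSpec R μ f σ) :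
    IsSpec R μ f' (ENNReal.ofReal (c⁻¹ ^ 2) • σ) := by
  have := hσ.1
  refine ⟨Measure.smul_finite σ ENNReal.ofReal_ne_top, fun n => ?_⟩
  rw [integral_smul_measure, hσ.2 n, ENNReal.toReal_ofReal (by positivity)]
  have h1 : ∫ x, f (R^[n] x) * f x ∂μ = c ^ 2 * ∫ x, f' (R^[n] x) * f' x ∂μ := by
    rw [← integral_const_mul]
    refine integral_congr_ae ?_
    have h2 : (fun x => f (R^[n] x)) =ᵐ[μ] fun x => c * f' (R^[n] x) :=
      (hR.iterate n).quasiMeasurePreserving.ae_eq h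
    filter_upwards [h, h2] with x h3 h4
    rw [h3, h4]; ring
  rw [h1, Complex.real_smul, ← Complex.ofReal_mul]
  congr 1
  field_simp

theorem SingSpec.scale {R : α → α} (hR : MeasurePreserving R μ μ) {f f' : α → ℝ} {c : ℝ} (hc : 0 < c)
    (h : f =ᵐ[μ] fun x => c * f' x) (hs : SingSpec R μ f) : SingSpec R μ f' := by
  obtain ⟨σ, hσ, hsing⟩ := hs
  exact ⟨_, hσ.scale hR hc h, hsing.smul _⟩

theorem ContSing.scale {R : α → α} (hR : MeasurePreserving R μ μ) {f f' : α → ℝ} {c : ℝ} (hc : 0 < c)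
    (h : f =ᵐ[μ] fun x => c * f' x) (hs : ContSing R μ f) : ContSing R μ f' := by
  obtain ⟨σ, hσ, hsing, hat⟩ := hs
  exact ⟨_, hσ.scale hR hc h, hsing.smul _, fun z => by simp [hat z]⟩

theorem conv_scale {T S : α ≃ᵐ α} {a b : ℕ → ℕ} (hT : MeasurePreserving (⇑T) μ μ)
    (hS : MeasurePreserving (⇑S) μ μ) {f f' g g' : α → ℝ} {c d : ℝ}
    (hf : f =ᵐ[μ] fun x => c * f' x) (hg : g =ᵐ[μ] fun x => d * g' x)
    (h : Conv μ T S a b f' g') : Conv μ T S a b f g :=
  Conv.congr hT hS hf.symm hg.symm (h.smul c d)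

end

/-! ### The tail part -/

/-- decomposition of a bounded function: `f = f1 + 2 f2`, `f1` measurable for `m`, `μ[f2|m] = 0` -/
theorem decomp {α : Type} (m : MeasurableSpace α) [m0 : MeasurableSpace α] {μ : Measure α}
    [IsProbabilityMeasure μ] (hm : m ≤ m0) {f : α → ℝ} (hf : Bd f) :
    ∃ f1 f2 : α → ℝ, Measurable[m] f1 ∧ Bd f1 ∧ Bd f2 ∧ (μ[f | m] =ᵐ[μ] f1) ∧
      (μ[f2 | m] =ᵐ[μ] 0) ∧ f = fun x => f1 x + 2 * f2 x := by
  have hfi : Integrable f μ := bd_int hf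
  set f1 : α → ℝ := fun x => max (-1) (min 1 ((μ[f | m]) x)) with hf1
  have hm1 : Measurable[m] f1 := by
    have h1 : Measurable[m] (μ[f | m]) := stronglyMeasurable_condExp.measurable
    exact (@measurable_const _ _ _ m _).max ((@measurable_const _ _ _ m _).min h1)
  have hb1 : Bd f1 := by
    refine ⟨hm1.mono hm le_rfl, fun x => ?_⟩
    rw [abs_le]
    exact ⟨le_max_left _ _, max_le (by norm_num) (min_le_left _ _)⟩
  have hae : μ[f | m] =ᵐ[μ] f1 := by
    have h2 := ae_bdd_abs_condExp_of_ae_bdd_abs (m := m) (μ := μ) (R := (1 : ℝ)) (f := f)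
      (Eventually.of_forall fun x => by simpa using hf.2 x)
    filter_upwards [h2] with x hx
    have hx' : |(μ[f | m]) x| ≤ 1 := by simpa using hx
    rw [abs_le] at hx'
    rw [hf1]
    simp only
    rw [min_eq_right hx'.2, max_eq_right hx'.1]
  refine ⟨f1, fun x => (f x - f1 x) / 2, hm1, hb1, ⟨?_, ?_⟩, hae, ?_, ?_⟩
  · exact (hf.1.sub hb1.1).div_const 2
  · intro x
    have h1 := abs_le.1 (hf.2 x)
    have h2 := abs_le.1 (hb1.2 x)
    rw [abs_le]
    constructor <;> linarith [h1.1, h1.2, h2.1, h2.2]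
  · have e : (fun x => (f x - f1 x) / 2) = (1 / 2 : ℝ) • (f - f1) := by
      ext x
      simp only [Pi.smul_apply, Pi.sub_apply, smul_eq_mul]; ring
    rw [e]
    have hi1 : Integrable f1 μ := bd_int hb1
    have h3 : μ[(1 / 2 : ℝ) • (f - f1) | m] =ᵐ[μ] (1 / 2 : ℝ) • μ[f - f1 | m] :=
      condExp_smul _ _ _
    have h4 : μ[f - f1 | m] =ᵐ[μ] μ[f | m] - μ[f1 | m] := condExp_sub hfi hi1 m
    have h5 : μ[f1 | m] = f1 := condExp_of_stronglyMeasurable hm hm1.stronglyMeasurable hi1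
    filter_upwards [h3, h4, hae] with x h3 h4 h6
    rw [h3, Pi.smul_apply, h4, Pi.sub_apply, h5, h6]
    simp
  · ext x; ring

theorem int_zero_of_condExp {α : Type} (m : MeasurableSpace α) [m0 : MeasurableSpace α] {μ : Measure α}
    [IsProbabilityMeasure μ] (hm : m ≤ m0) {f : α → ℝ} (h : μ[f | m] =ᵐ[μ] 0) : ∫ x, f x ∂μ = 0 := by
  rw [← integral_condExp hm, integral_congr_ae h]
  simp

theorem conv_tail' (hcore : G_CORE) (hHZ : G_HZ) (hZP : G_ZP) (hVN : G_VN) (hEL : G_EL)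
    (hFZ : G_FZ) (hKM : G_KM) (hREV : G_REV) (hAPX : G_APX) (hSEP : G_SEP) (hK22 : G_K22)
    (hK21 : G_K21) {α : Type} (A : MeasurableSpace α) [m0 : MeasurableSpace α] {μ : Measure α}
    [IsProbabilityMeasure μ] {T : α ≃ᵐ α} {a b : ℕ → ℕ} (hW : Wp a b) (ha : StrictMono a)
    (hb : StrictMono b) (hT : Ergodic (⇑T) μ) {f g : α → ℝ} (hf : Bd f) (hg : Bd g) (hA : Exh A T)
    (hs : SingSpec (⇑T) μ (μ[f | Tl A T])) : Conv μ T T a b f g := by
  have hmT := hT.toMeasurePreserving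
  have hle : Tl A T ≤ m0 := (hFZ hZP α A T hA).2.2.1
  obtain ⟨f1, f2, f1m, f1b, f2b, f1e, f2z, fe⟩ := decomp (μ := μ) (Tl A T) hle hf
  obtain ⟨g1, g2, g1m, g1b, g2b, g1e, g2z, ge⟩ := decomp (μ := μ) (Tl A T) hle hg
  have hs1 : SingSpec (⇑T) μ f1 := SingSpec.scale hmT one_pos (by simpa using f1e) hs
  have c1 : Conv μ T T a b f1 g :=
    conv_single hcore hHZ hZP hVN hEL hW hT hT (fun x => rfl) f1b hg hs1
  have i2 : ∫ x, f2 x ∂μ = 0 := int_zero_of_condExp (Tl A T) hle f2z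
  have c2 : Conv μ T T a b f2 g1 := conv_of_sq hmT hmT f2b g1b (by rw [i2, zero_mul])
    (hK21 hKM hREV hAPX hSEP hFZ hZP α A μ T hA hmT a b hW ha hb f2 g1 f2b g1b f2z g1m)
  have c3 : Conv μ T T a b f2 g2 := conv_of_sq hmT hmT f2b g2b (by rw [i2, zero_mul])
    (hK22 hKM hREV hAPX hSEP hFZ hZP α A μ T hA hmT a b hW ha hb f2 g2 f2b g2b f2z g2z)
  have c4 : Conv μ T T a b f2 g := by
    rw [ge]
    refine Conv.add' hmT hmT (bd_int g1b) ((bd_int g2b).const_mul 2) f2b.1.aestronglyMeasurable c2 ?_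
    simpa using c3.smul 1 2
  rw [fe]
  refine Conv.add hmT hmT (bd_int f1b) ((bd_int f2b).const_mul 2) hg.1.aestronglyMeasurable c1 ?_
  simpa using c4.smul 2 1

theorem conv_tail (hcore : G_CORE) (hHZ : G_HZ) (hZP : G_ZP) (hVN : G_VN) (hEL : G_EL)
    (hFZ : G_FZ) (hKM : G_KM) (hREV : G_REV) (hAPX : G_APX) (hSEP : G_SEP) (hK22 : G_K22)
    (hK21 : G_K21) {α : Type} [m0 : MeasurableSpace α] {μ : Measure α} [IsProbabilityMeasure μ]
    {T : α ≃ᵐ α} {a b : ℕ → ℕ} (hW : Wp a b) (ha : StrictMono a) (hb : StrictMono b)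
    (hT : Ergodic (⇑T) μ) {f g : α → ℝ} (hf : Bd f) (hg : Bd g) (h : TailSing μ T f) :
    Conv μ T T a b f g := by
  obtain ⟨A, hA, hs⟩ := h
  exact @conv_tail' hcore hHZ hZP hVN hEL hFZ hKM hREV hAPX hSEP hK22 hK21 α A m0 μ _ T a b hW ha hb
    hT f g hf hg hA hs

theorem TailSing.scale {α : Type} [m0 : MeasurableSpace α] {μ : Measure α}
    [IsProbabilityMeasure μ] {T : α ≃ᵐ α} (hT : MeasurePreserving (⇑T) μ μ) {f f' : α → ℝ} {c : ℝ}
    (hc : 0 < c) (h : f =ᵐ[μ] fun x => c * f' x) (hs : TailSing μ T f) : TailSing μ T f' := by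
  obtain ⟨A, hA, hs⟩ := hs
  refine ⟨A, hA, ?_⟩
  refine @SingSpec.scale α m0 μ _ _ hT _ _ c hc ?_ hs
  have h1 : μ[f | @Tl α A m0 T] =ᵐ[μ] μ[c • f' | @Tl α A m0 T] := condExp_congr_ae h
  have h2 : μ[c • f' | @Tl α A m0 T] =ᵐ[μ] c • μ[f' | @Tl α A m0 T] := condExp_smul _ _ _
  exact h1.trans h2

/-- The deterministic theorem. -/
theorem conv_all (hcore : G_CORE) (hHZ : G_HZ) (hZP : G_ZP) (hVN : G_VN) (hEL : G_EL) (hWSY : G_WSY)
    (hFZ : G_FZ) (hKM : G_KM) (hREV : G_REV) (hAPX : G_APX) (hSEP : G_SEP) (hK22 : G_K22)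
    (hK21 : G_K21) {α : Type} [MeasurableSpace α] {μ : Measure α} [IsProbabilityMeasure μ]
    {T S : α ≃ᵐ α} {a b : ℕ → ℕ} (hW : Wp a b) (ha : StrictMono a) (hb : StrictMono b)
    (hT : Ergodic (⇑T) μ) (hS : Ergodic (⇑S) μ) (hTS : ∀ x, T (S x) = S (T x)) {f g : α → ℝ}
    (hf : MemLp f ⊤ μ) (hg : MemLp g ⊤ μ) (h : Adm μ T S f g) : Conv μ T S a b f g := by
  have hmT := hT.toMeasurePreserving
  have hmS := hS.toMeasurePreserving
  obtain ⟨c, f', hc, hf', hfe⟩ := exists_bd hf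
  obtain ⟨d, g', hd, hg', hge⟩ := exists_bd hg
  refine conv_scale hmT hmS hfe hge ?_
  rcases h with h | h | ⟨R, hR, hRT, hRS, h | h⟩ | ⟨rfl, h | h⟩
  · exact conv_bd hcore hHZ hZP hVN hEL hWSY hW hT hS hTS hf' hg' (Or.inl (h.scale hmT hc hfe))
  · exact conv_bd hcore hHZ hZP hVN hEL hWSY hW hT hS hTS hf' hg' (Or.inr (Or.inl (h.scale hmS hd hge)))
  · exact conv_bd hcore hHZ hZP hVN hEL hWSY hW hT hS hTS hf' hg'
      (Or.inr (Or.inr ⟨R, hR, hRT, hRS, Or.inl (h.scale hR hc hfe)⟩))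
  · exact conv_bd hcore hHZ hZP hVN hEL hWSY hW hT hS hTS hf' hg'
      (Or.inr (Or.inr ⟨R, hR, hRT, hRS, Or.inr (h.scale hR hd hge)⟩))
  · exact conv_tail hcore hHZ hZP hVN hEL hFZ hKM hREV hAPX hSEP hK22 hK21 hW ha hb hT hf' hg'
      (h.scale hmT hc hfe)
  · exact (conv_tail hcore hHZ hZP hVN hEL hFZ hKM hREV hAPX hSEP hK22 hK21 (hWSY a b hW) hb ha hT hg' hf'
      (h.scale hmT hd hge)).swap

end Pool.Agent.Helper57.SS
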