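import Pool.Agent.Helper57.SS.Final
import Pool.Agent.Helper49.RS.Birkhoff

/-!
# Project SS (MP_9a4587_an), second part: `T = S`, not ergodic (packets)

THEOREM.  For all `a, b ∈ (0,1)`, almost surely: for every automorphism `T` (ergodic or not) of a
probability space and bounded `f, g` such that the conditional expectation of `f` on the tail of some
exhausting decreasing filtration has singular spectral measure, the averages converge in `L²` to
`μ[f | inv] μ[g | inv]`.  Reduction to ergodic `T`: ergodic decomposition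
(`ProbabilityTheory.condExpKernel` for the σ-algebra of invariant sets) of the standard Borel factor
`ℤ → ℝ × ℝ`.
-/

set_option autoImplicit false

namespace Pool.Agent.Helper57.SS

open MeasureTheory ProbabilityTheory Filter Topology
open scoped ComplexConjugate

/-- the averages converge to the product of the conditional expectations, second moments -/
def CvI {α : Type} [MeasurableSpace α] (μ : Measure α) (T : α ≃ᵐ α) (a b : ℕ → ℕ) (f g : α → ℝ) : Prop :=
  Tendsto (fun N : ℕ => ∫ x, (Av T T a b f g N x - (μ[f | MeasurableSpace.invariants (⇑T)]) x *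
    (μ[g | MeasurableSpace.invariants (⇑T)]) x) ^ 2 ∂μ) atTop (𝓝 0)

/-- the conditional measures on the invariant sets -/
noncomputable def kap {X : Type} [MeasurableSpace X] [StandardBorelSpace X] (ν : Measure X)
    [IsProbabilityMeasure ν] (T : X → X) (u : X) : Measure X :=
  condExpKernel ν (MeasurableSpace.invariants T) u

/-- the ergodic case (available as `conv_single` applied to the landed packets) -/
def S_CS : Prop := ∀ (α : Type) [MeasurableSpace α] (μ : Measure α) [IsProbabilityMeasure μ] (T : α ≃ᵐ α)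
  (a b : ℕ → ℕ), Wp a b → Ergodic (⇑T) μ → ∀ f g : α → ℝ, Bd f → Bd g → SingSpec (⇑T) μ f →
  Conv μ T T a b f g

/-- (EB), Birkhoff: `Pool.Agent.Helper49.RS.birkhoff` (`avg` there is this average) with the bounded version of the
conditional expectation from `Pool/Agent/Helper49/RS/Erg.lean` (near line 296, import it), or directly. -/
def G_EB : Prop := ∀ (α : Type) [MeasurableSpace α] (μ : Measure α) [IsProbabilityMeasure μ] (T : α → α),
  MeasurePreserving T μ μ → ∀ f : α → ℝ, Bd f → ∀ᵐ x ∂μ,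
  Tendsto (fun n : ℕ => (n : ℝ)⁻¹ * ∑ k ∈ Finset.range n, f (T^[k] x)) atTop
    (𝓝 ((μ[f | MeasurableSpace.invariants T]) x))

/-- (K2), the kernel.  (1)-(4) from `Mathlib.Probability.Kernel.Condexp`.  (5): with `ψ u = ∫ F d(kap u)`, measurable for
the invariant σ-algebra: `∫_u ∫_v (ψ v - ψ u)² d(kap u)(v) dν(u) = ∫ ν[ψ²|I] - 2 ψ ν[ψ|I] + ψ² dν = 0`. -/
def G_K2 : Prop := ∀ (X : Type) [MeasurableSpace X] [StandardBorelSpace X] (ν : Measure X)
  [IsProbabilityMeasure ν] (T : X → X), MeasurePreserving T ν ν →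
  (∀ u, IsProbabilityMeasure (kap ν T u)) ∧
  (∀ F : X → ℝ, Bd F → Measurable[MeasurableSpace.invariants T] (fun u => ∫ x, F x ∂(kap ν T u))) ∧
  (∀ F : X → ℝ, Bd F → ν[F | MeasurableSpace.invariants T] =ᵐ[ν] fun u => ∫ x, F x ∂(kap ν T u)) ∧
  (∀ F : X → ℝ, Bd F → ∫ x, F x ∂ν = ∫ u, (∫ x, F x ∂(kap ν T u)) ∂ν) ∧
  (∀ F : X → ℝ, Bd F → ∀ᵐ u ∂ν, ∀ᵐ v ∂(kap ν T u), ∫ x, F x ∂(kap ν T v) = ∫ x, F x ∂(kap ν T u)) ∧
  (∀ p : X → Prop, (∀ᵐ x ∂ν, p x) → ∀ᵐ u ∂ν, ∀ᵐ x ∂(kap ν T u), p x)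

/-- the conditional measures are invariant -/
def S_K3 : Prop := ∀ (X : Type) [MeasurableSpace X] [StandardBorelSpace X] (ν : Measure X)
  [IsProbabilityMeasure ν] (T : X → X), MeasurePreserving T ν ν →
  ∀ᵐ u ∂ν, MeasurePreserving T (kap ν T u) (kap ν T u)

/-- (K3).  Choose a countable π-system generating the σ-algebra of `X`.  For `A` in it `ν[1_A∘T | I] = ν[1_A | I]`
almost everywhere (the integrals over invariant sets agree), so `kap u (T⁻¹ A) = kap u A` for almost all `u`, for all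
these `A` at once; `MeasureTheory.ext_of_generate_finite`. -/
def G_K3 : Prop := G_K2 → S_K3

/-- the conditional measures are ergodic -/
def S_K4 : Prop := ∀ (X : Type) [MeasurableSpace X] [StandardBorelSpace X] (ν : Measure X)
  [IsProbabilityMeasure ν] (T : X → X), MeasurePreserving T ν ν → ∀ᵐ u ∂ν, Ergodic T (kap ν T u)

/-- (K4).  Let `𝒜` be a countable algebra (or family) of sets, dense for every finite measure (countable algebra
generating the σ-algebra, `MeasureTheory.exists_measure_symmDiff_lt..` or similar).  By `G_EB` and `G_K2` (3), (5), (6):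
for almost every `u`, for all `A ∈ 𝒜`: for `kap u`-almost every `v` the averages of `1_A` at `v` converge to
`∫ 1_A d(kap v) = kap u A`.  Fix such `u` with `T` preserving `kap u`.  If `T⁻¹ E = E` and `|1_E - 1_A|_{L¹(kap u)} ≤ ε`
then `|1_E - avg_n 1_A|_{L¹} ≤ ε` (invariance), so `|1_E - kap u A|_{L¹} ≤ ε` (dominated convergence); `ε → 0`: `1_E` is
almost everywhere constant. -/
def G_K4 : Prop := G_EB → G_K2 → S_K3 → S_K4

/-- (ES1).  Let `σ Z = 0`, `volume Zᶜ = 0`.  Approximate the indicator of `Z` in `L²(σ + volume)` by a continuous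
function, and this uniformly by a trigonometric polynomial (`span_fourier_closure_eq_top`). -/
def G_ES1 : Prop := ∀ (σ : Measure Ci) [IsFiniteMeasure σ], σ ⟂ₘ volume → ∀ ε : ℝ, 0 < ε →
  ∃ c : ℤ →₀ ℂ, ∫ z, ‖c.sum fun n u => u * fourier n z‖ ^ 2 ∂σ ≤ ε ∧
    ∫ z, ‖(c.sum fun n u => u * fourier n z) - 1‖ ^ 2 ∂(volume : Measure Ci) ≤ ε

/-- (ES2).  Along a subsequence `P_j → 0` `σ`-almost everywhere, along a further one `P_j → 1` almost everywhere for
`volume`; the set where the subsequence tends to `0` has full measure for `σ` and measure `0` for `volume`. -/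
def G_ES2 : Prop := ∀ (σ : Measure Ci) [IsFiniteMeasure σ] (c : ℕ → ℤ →₀ ℂ),
  Tendsto (fun j => ∫ z, ‖(c j).sum fun n u => u * fourier n z‖ ^ 2 ∂σ) atTop (𝓝 0) →
  Tendsto (fun j => ∫ z, ‖((c j).sum fun n u => u * fourier n z) - 1‖ ^ 2 ∂(volume : Measure Ci)) atTop
    (𝓝 0) → σ ⟂ₘ volume

/-- singular spectral measures pass to the ergodic components -/
def S_ES : Prop := ∀ (X : Type) [MeasurableSpace X] [StandardBorelSpace X] (ν : Measure X)
  [IsProbabilityMeasure ν] (T : X ≃ᵐ X), MeasurePreserving (⇑T) ν ν → ∀ f : X → ℝ, Bd f →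
  SingSpec (⇑T) ν f → ∀ᵐ u ∂ν, SingSpec (⇑T) (kap ν (⇑T) u) f

/-- (ES3).  Take `c j` from `G_ES1` with `ε = 4^(-j)` for the spectral measure `σ` of `f` for `ν`.  With
`Q_j(μ) = ∑_{p,q} (c j) p conj((c j) q) rr T μ f (p-q)` (real part): `Q_j(ν) = ∫ |P_j|² dσ` (`G_SPZ`) and
`Q_j(ν) = ∫ Q_j(kap u) dν(u)` (`G_K2` (4) for the functions `f∘T^m · f`), `Q_j(kap u) ≥ 0`.  So `∑_j Q_j(kap u) < ∞` and
`Q_j(kap u) → 0` for almost every `u`.  For such `u` with `T` preserving `kap u` there is `σ_u` with Fourier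
coefficients `rr T (kap u) f` (`G_HZ1`, `G_RPD`): `∫ |P_j|² dσ_u = Q_j(kap u) → 0`; `G_ES2`. -/
def G_ES3 : Prop := G_ES1 → G_ES2 → G_K2 → S_K3 → G_HZ → G_HZ1 → G_RPD → G_ZP → G_SPZ → S_ES

/-- the theorem on standard Borel spaces -/
def S_EC : Prop := ∀ (X : Type) [MeasurableSpace X] [StandardBorelSpace X] (ν : Measure X)
  [IsProbabilityMeasure ν] (T : X ≃ᵐ X), MeasurePreserving (⇑T) ν ν → ∀ a b : ℕ → ℕ, Wp a b →
  ∀ f g : X → ℝ, Bd f → Bd g → SingSpec (⇑T) ν f → CvI ν T a b f g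

/-- (EC).  `∫ (Av - F G)² dν = ∫_u ∫_v (Av v - F v G v)² d(kap u)(v) dν(u)` where `F v = ∫ f d(kap v)`,
`G v = ∫ g d(kap v)` are versions of the conditional expectations; for `kap u`-almost every `v` (for almost every `u`)
`F v G v = ∫ f d(kap u) ∫ g d(kap u)`, and `Conv (kap u) T T a b f g` holds for almost every `u`
(`S_K4`, `S_ES`, `S_CS`): the inner integral tends to `0`; dominated convergence (it is at most `4`). -/
def G_EC : Prop := S_CS → G_K2 → S_K4 → S_ES → S_EC

/-- the theorem on arbitrary spaces -/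
def S_EF : Prop := ∀ (α : Type) [MeasurableSpace α] (μ : Measure α) [IsProbabilityMeasure μ] (T : α ≃ᵐ α),
  MeasurePreserving (⇑T) μ μ → ∀ a b : ℕ → ℕ, Wp a b → ∀ f g : α → ℝ, Bd f → Bd g →
  SingSpec (⇑T) μ f → CvI μ T a b f g

/-- (EF), the factor.  `X = ℤ → ℝ × ℝ`, `π x n = (f (zp T n x), g (zp T n x))`, `ν = μ.map π`, `T'` the shift
`(T' u) n = u (n+1)`, `π (T x) = T' (π x)`; `f' u = max (-1) (min 1 (u 0).1)`, `g'` similarly: `f' ∘ π = f`.
`SingSpec T' ν f'` (same integrals), `Av T' T' a b f' g' N (π x) = Av T T a b f g N x`, and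
`ν[f'|I'] ∘ π = μ[f|I]` almost everywhere: both are the limits of the averages (`G_EB`). -/
def G_EF : Prop := S_EC → G_EB → G_ZP → S_EF

/-- (ET).  Let `B` be invariant, measurable; `v` the indicator of `B`.  By `G_APX` there is for `ε` a number `p` and
`v'`, measurable for `Fz (-p)`, `|v'| ≤ 1`, `∫|v - v'| ≤ ε`.  With `D` from `G_KM` for `f` and `ε`: `v'∘T^(D+p)` is
measurable for `Fz D` (`G_FZ`), `v∘T^(D+p) = v`, so `|∫ f v| ≤ |∫ f v'∘T^(D+p)| + ε ≤ 2ε`.  Hence `∫_B f = 0` for all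
invariant `B`. -/
def G_ET : Prop := G_KM → G_REV → G_APX → G_FZ → G_ZP → ∀ (α : Type) (A : MeasurableSpace α)
  [m0 : MeasurableSpace α] (μ : Measure α) [IsProbabilityMeasure μ] (T : α ≃ᵐ α), Exh A T →
  MeasurePreserving (⇑T) μ μ → ∀ f : α → ℝ, Bd f → μ[f | Tl A T] =ᵐ[μ] 0 →
  μ[f | MeasurableSpace.invariants (⇑T)] =ᵐ[μ] 0

end Pool.Agent.Helper57.SS
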