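import Pool.Agent.Helper57.SS.Mix
import Pool.Agent.Helper57.SS.Goals2

/-!
# Project SS, second part: assembly
-/

set_option autoImplicit false

namespace Pool.Agent.Helper57.SS

open MeasureTheory Filter Topology

/-- Convergence of the averages to the product of the conditional expectations. -/
def ConvI {α : Type} [MeasurableSpace α] (μ : Measure α) (T : α ≃ᵐ α) (a b : ℕ → ℕ) (f g : α → ℝ) : Prop :=
  Tendsto (fun N : ℕ => eLpNorm (fun x => Av T T a b f g N x -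
    (μ[f | MeasurableSpace.invariants (⇑T)]) x * (μ[g | MeasurableSpace.invariants (⇑T)]) x) 2 μ)
    atTop (𝓝 0)

theorem condExp_bd {α : Type} (m : MeasurableSpace α) [m0 : MeasurableSpace α] {μ : Measure α}
    {f : α → ℝ} (hf : Bd f) : ∀ᵐ x ∂μ, |(μ[f | m]) x| ≤ 1 := by
  have h2 := ae_bdd_abs_condExp_of_ae_bdd_abs (m := m) (μ := μ) (R := (1 : ℝ)) (f := f)
      (Eventually.of_forall fun x => by simpa using hf.2 x)
  exact h2

section
variable {α : Type} [MeasurableSpace α] {μ : Measure α} [IsProbabilityMeasure μ]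

theorem el_of_sq {u : ℕ → α → ℝ} (hm : ∀ N, AEStronglyMeasurable (u N) μ) {C : ℝ}
    (hb : ∀ N, ∀ᵐ x ∂μ, |u N x| ≤ C) (h : Tendsto (fun N => ∫ x, (u N x) ^ 2 ∂μ) atTop (𝓝 0)) :
    Tendsto (fun N => eLpNorm (u N) 2 μ) atTop (𝓝 0) := by
  have hL : ∀ N, MemLp (u N) 2 μ := fun N =>
    MemLp.of_bound (hm N) C (by filter_upwards [hb N] with x hx; rwa [Real.norm_eq_abs])
  have e : ∀ N : ℕ, eLpNorm (u N) 2 μ = ENNReal.ofReal (∫ x, (u N x) ^ 2 ∂μ) ^ (1 / 2 : ℝ) := by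
    intro N
    rw [(hL N).eLpNorm_eq_integral_rpow_norm (by norm_num) (by norm_num)]
    have e2 : (2 : ENNReal).toReal = 2 := by norm_num
    rw [e2]
    have e3 : ∫ x, ‖u N x‖ ^ (2 : ℝ) ∂μ = ∫ x, (u N x) ^ 2 ∂μ := by
      refine integral_congr_ae (Eventually.of_forall fun x => ?_)
      show ‖u N x‖ ^ (2 : ℝ) = (u N x) ^ 2
      rw [Real.norm_eq_abs, Real.rpow_two, sq_abs]
    rw [e3, ENNReal.ofReal_rpow_of_nonneg (integral_nonneg fun x => sq_nonneg _) (by norm_num)]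
    norm_num
  simp_rw [e]
  have h8 : Tendsto (fun N => ENNReal.ofReal (∫ x, (u N x) ^ 2 ∂μ)) atTop (𝓝 0) := by
    have := (ENNReal.continuous_ofReal.tendsto 0).comp h
    simpa [Function.comp_def] using this
  have h9 := (ENNReal.continuous_rpow_const (y := (1 / 2 : ℝ))).tendsto 0 |>.comp h8
  have h3 : (0 : ENNReal) ^ (1 / 2 : ℝ) = 0 := ENNReal.zero_rpow_of_pos (by norm_num)
  rw [h3] at h9
  exact h9

theorem convI_of_CvI {T : α ≃ᵐ α} {a b : ℕ → ℕ} (hT : MeasurePreserving (⇑T) μ μ) {f g : α → ℝ}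
    (hf : Bd f) (hg : Bd g) (h : CvI μ T a b f g) : ConvI μ T a b f g := by
  refine el_of_sq (C := 2) (fun N => ?_) (fun N => ?_) h
  · refine (aesm_Av hT hT hf.1.aestronglyMeasurable hg.1.aestronglyMeasurable N).sub ?_
    exact (stronglyMeasurable_condExp.mono (MeasurableSpace.invariants_le _)).aestronglyMeasurable.mul
      (stronglyMeasurable_condExp.mono (MeasurableSpace.invariants_le _)).aestronglyMeasurable
  · filter_upwards [condExp_bd (μ := μ) (MeasurableSpace.invariants (⇑T)) hf,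
      condExp_bd (μ := μ) (MeasurableSpace.invariants (⇑T)) hg] with x h1 h2
    refine (abs_sub _ _).trans ?_
    have h3 := Av_abs_le (T := T) (S := T) (a := a) (b := b) hf hg N x
    have h4 : |(μ[f | MeasurableSpace.invariants (⇑T)]) x * (μ[g | MeasurableSpace.invariants (⇑T)]) x| ≤ 1 := by
      rw [abs_mul]; exact mul_le_one₀ h1 (abs_nonneg _) h2
    linarith

theorem el_Av {T : α ≃ᵐ α} {a b : ℕ → ℕ} (hT : MeasurePreserving (⇑T) μ μ) {f g : α → ℝ}
    (hf : Bd f) (hg : Bd g) (h : Tendsto (fun N => ∫ x, (Av T T a b f g N x) ^ 2 ∂μ) atTop (𝓝 0)) :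
    Tendsto (fun N => eLpNorm (fun x => Av T T a b f g N x) 2 μ) atTop (𝓝 0) :=
  el_of_sq (C := 1) (fun N => aesm_Av hT hT hf.1.aestronglyMeasurable hg.1.aestronglyMeasurable N)
    (fun N => Eventually.of_forall fun x => Av_abs_le hf hg N x) h

theorem Av_add_right {T S : α ≃ᵐ α} {a b : ℕ → ℕ} (f g g' : α → ℝ) (c : ℝ) (N : ℕ) (x : α) :
    Av T S a b f (fun x => g x + c * g' x) N x = Av T S a b f g N x + c * Av T S a b f g' N x := by
  simp only [Av]
  have : ∑ k ∈ Finset.range N, f ((⇑T)^[a k] x) * (g ((⇑S)^[b k] x) + c * g' ((⇑S)^[b k] x)) =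
      ∑ k ∈ Finset.range N, f ((⇑T)^[a k] x) * g ((⇑S)^[b k] x) +
      c * ∑ k ∈ Finset.range N, f ((⇑T)^[a k] x) * g' ((⇑S)^[b k] x) := by
    rw [Finset.mul_sum, ← Finset.sum_add_distrib]
    exact Finset.sum_congr rfl fun k _ => by ring
  rw [this]; ring

theorem Av_add_left {T S : α ≃ᵐ α} {a b : ℕ → ℕ} (f f' g : α → ℝ) (c : ℝ) (N : ℕ) (x : α) :
    Av T S a b (fun x => f x + c * f' x) g N x = Av T S a b f g N x + c * Av T S a b f' g N x := by
  rw [Av_swap, Av_add_right, Av_swap S T, Av_swap S T]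

/-- absorbing a part with small averages -/
theorem ConvI.add_left {T : α ≃ᵐ α} {a b : ℕ → ℕ} (hT : MeasurePreserving (⇑T) μ μ)
    {f1 f2 g : α → ℝ} (hf1 : Bd f1) (hf2 : Bd f2) (hg : Bd g)
    (hz : μ[f2 | MeasurableSpace.invariants (⇑T)] =ᵐ[μ] 0) (h1 : ConvI μ T a b f1 g)
    (h2 : Tendsto (fun N => eLpNorm (fun x => Av T T a b f2 g N x) 2 μ) atTop (𝓝 0)) :
    ConvI μ T a b (fun x => f1 x + 2 * f2 x) g := by
  unfold ConvI at h1 ⊢
  have hs := h1.add (ENNReal.Tendsto.const_mul (a := ‖(2 : ℝ)‖ₑ) h2 (Or.inr enorm_ne_top))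
  rw [mul_zero, add_zero] at hs
  refine tendsto_of_tendsto_of_tendsto_of_le_of_le tendsto_const_nhds hs (fun _ => bot_le)
    fun N => ?_
  have hcond : μ[fun x => f1 x + 2 * f2 x | MeasurableSpace.invariants (⇑T)] =ᵐ[μ]
      μ[f1 | MeasurableSpace.invariants (⇑T)] := by
    have e : (fun x => f1 x + 2 * f2 x) = f1 + (2 : ℝ) • f2 := by
      ext x; simp [smul_eq_mul]
    rw [e]
    have k1 := condExp_add (μ := μ) (bd_int hf1) ((bd_int hf2).smul (2 : ℝ))
      (MeasurableSpace.invariants (⇑T))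
    have k2 := condExp_smul (μ := μ) (2 : ℝ) f2 (MeasurableSpace.invariants (⇑T))
    filter_upwards [k1, k2, hz] with x k1 k2 k3
    rw [k1, Pi.add_apply, k2, Pi.smul_apply, k3]
    simp
  have e : (fun x => Av T T a b (fun x => f1 x + 2 * f2 x) g N x -
      (μ[fun x => f1 x + 2 * f2 x | MeasurableSpace.invariants (⇑T)]) x *
        (μ[g | MeasurableSpace.invariants (⇑T)]) x) =ᵐ[μ]
      (fun x => Av T T a b f1 g N x - (μ[f1 | MeasurableSpace.invariants (⇑T)]) x *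
        (μ[g | MeasurableSpace.invariants (⇑T)]) x) + (2 : ℝ) • fun x => Av T T a b f2 g N x := by
    filter_upwards [hcond] with x hx
    rw [hx, Av_add_left]
    simp only [Pi.add_apply, Pi.smul_apply, smul_eq_mul]
    ring
  show eLpNorm _ 2 μ ≤ _
  rw [eLpNorm_congr_ae e]
  have m1 : AEStronglyMeasurable (fun x => Av T T a b f1 g N x -
      (μ[f1 | MeasurableSpace.invariants (⇑T)]) x * (μ[g | MeasurableSpace.invariants (⇑T)]) x) μ := by
    refine (aesm_Av hT hT hf1.1.aestronglyMeasurable hg.1.aestronglyMeasurable N).sub ?_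
    exact (stronglyMeasurable_condExp.mono (MeasurableSpace.invariants_le _)).aestronglyMeasurable.mul
      (stronglyMeasurable_condExp.mono (MeasurableSpace.invariants_le _)).aestronglyMeasurable
  have m2 : AEStronglyMeasurable ((2 : ℝ) • fun x => Av T T a b f2 g N x) μ :=
    (aesm_Av hT hT hf2.1.aestronglyMeasurable hg.1.aestronglyMeasurable N).const_smul 2
  refine (eLpNorm_add_le m1 m2 (by norm_num)).trans ?_
  rw [eLpNorm_const_smul]

theorem ConvI.swap {T : α ≃ᵐ α} {a b : ℕ → ℕ} {f g : α → ℝ} (h : ConvI μ T a b f g) :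
    ConvI μ T b a g f := by
  unfold ConvI at h ⊢
  refine h.congr fun N => ?_
  congr 1
  ext x
  rw [Av_swap T T a b f g N x, mul_comm ((μ[f | MeasurableSpace.invariants (⇑T)]) x)]

theorem ConvI.scale {T : α ≃ᵐ α} {a b : ℕ → ℕ} (hT : MeasurePreserving (⇑T) μ μ) {f f' g g' : α → ℝ}
    {c d : ℝ} (hf : f =ᵐ[μ] fun x => c * f' x) (hg : g =ᵐ[μ] fun x => d * g' x)
    (h : ConvI μ T a b f' g') : ConvI μ T a b f g := by
  unfold ConvI at h ⊢
  have hcf : μ[f | MeasurableSpace.invariants (⇑T)] =ᵐ[μ]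
      c • μ[f' | MeasurableSpace.invariants (⇑T)] :=
    (condExp_congr_ae (m := MeasurableSpace.invariants (⇑T)) hf).trans (condExp_smul c f' _)
  have hcg : μ[g | MeasurableSpace.invariants (⇑T)] =ᵐ[μ]
      d • μ[g' | MeasurableSpace.invariants (⇑T)] :=
    (condExp_congr_ae (m := MeasurableSpace.invariants (⇑T)) hg).trans (condExp_smul d g' _)
  have e : ∀ N : ℕ, eLpNorm (fun x => Av T T a b f g N x -
      (μ[f | MeasurableSpace.invariants (⇑T)]) x * (μ[g | MeasurableSpace.invariants (⇑T)]) x) 2 μ =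
      ‖c * d‖ₑ * eLpNorm (fun x => Av T T a b f' g' N x -
      (μ[f' | MeasurableSpace.invariants (⇑T)]) x * (μ[g' | MeasurableSpace.invariants (⇑T)]) x) 2 μ := by
    intro N
    rw [← eLpNorm_const_smul]
    refine eLpNorm_congr_ae ?_
    filter_upwards [Av_congr (a := a) (b := b) hT hT hf hg N, hcf, hcg] with x k1 k2 k3
    rw [k1, k2, k3]
    simp only [Av, Pi.smul_apply, smul_eq_mul]
    have : ∑ k ∈ Finset.range N, c * f' ((⇑T)^[a k] x) * (d * g' ((⇑T)^[b k] x)) =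
        c * d * ∑ k ∈ Finset.range N, f' ((⇑T)^[a k] x) * g' ((⇑T)^[b k] x) := by
      rw [Finset.mul_sum]
      exact Finset.sum_congr rfl fun k _ => by ring
    rw [this]; ring
  simp_rw [e]
  have := ENNReal.Tendsto.const_mul (a := ‖c * d‖ₑ) h (Or.inr enorm_ne_top)
  simpa using this

end

theorem convI_tail' (hEF : S_EF) (hET : G_ET) (hZP : G_ZP)
    (hFZ : G_FZ) (hKM : G_KM) (hREV : G_REV) (hAPX : G_APX) (hSEP : G_SEP) (hK22 : G_K22)
    (hK21 : G_K21) {α : Type} (A : MeasurableSpace α) [m0 : MeasurableSpace α] {μ : Measure α}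
    [IsProbabilityMeasure μ] {T : α ≃ᵐ α} {a b : ℕ → ℕ} (hW : Wp a b) (ha : StrictMono a)
    (hb : StrictMono b) (hT : MeasurePreserving (⇑T) μ μ) {f g : α → ℝ} (hf : Bd f) (hg : Bd g)
    (hA : Exh A T) (hs : SingSpec (⇑T) μ (μ[f | Tl A T])) : ConvI μ T a b f g := by
  have hle : Tl A T ≤ m0 := (hFZ hZP α A T hA).2.2.1
  obtain ⟨f1, f2, f1m, f1b, f2b, f1e, f2z, fe⟩ := decomp (μ := μ) (Tl A T) hle hf
  obtain ⟨g1, g2, g1m, g1b, g2b, g1e, g2z, ge⟩ := decomp (μ := μ) (Tl A T) hle hg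
  have hs1 : SingSpec (⇑T) μ f1 := SingSpec.scale hT one_pos (by simpa using f1e) hs
  have c1 : ConvI μ T a b f1 g := convI_of_CvI hT f1b hg (hEF α μ T hT a b hW f1 g f1b hg hs1)
  have z2 := hET hKM hREV hAPX hFZ hZP α A μ T hA hT f2 f2b f2z
  have c2 := el_Av hT f2b g1b
    (hK21 hKM hREV hAPX hSEP hFZ hZP α A μ T hA hT a b hW ha hb f2 g1 f2b g1b f2z g1m)
  have c3 := el_Av hT f2b g2b
    (hK22 hKM hREV hAPX hSEP hFZ hZP α A μ T hA hT a b hW ha hb f2 g2 f2b g2b f2z g2z)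
  have c4 : Tendsto (fun N => eLpNorm (fun x => Av T T a b f2 g N x) 2 μ) atTop (𝓝 0) := by
    have hs := c2.add (ENNReal.Tendsto.const_mul (a := ‖(2 : ℝ)‖ₑ) c3 (Or.inr enorm_ne_top))
    rw [mul_zero, add_zero] at hs
    refine tendsto_of_tendsto_of_tendsto_of_le_of_le tendsto_const_nhds hs (fun _ => bot_le)
      fun N => ?_
    have e : (fun x => Av T T a b f2 g N x) =
        (fun x => Av T T a b f2 g1 N x) + (2 : ℝ) • fun x => Av T T a b f2 g2 N x := by
      ext x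
      rw [ge, Av_add_right]
      simp only [Pi.add_apply, Pi.smul_apply, smul_eq_mul]
    show eLpNorm _ 2 μ ≤ _
    rw [e]
    refine (eLpNorm_add_le (aesm_Av hT hT f2b.1.aestronglyMeasurable g1b.1.aestronglyMeasurable N)
      ((aesm_Av hT hT f2b.1.aestronglyMeasurable g2b.1.aestronglyMeasurable N).const_smul 2)
      (by norm_num)).trans ?_
    rw [eLpNorm_const_smul]
  rw [fe]
  exact ConvI.add_left hT f1b f2b hg z2 c1 c4

theorem convI_tail (hEF : S_EF) (hET : G_ET) (hZP : G_ZP)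
    (hFZ : G_FZ) (hKM : G_KM) (hREV : G_REV) (hAPX : G_APX) (hSEP : G_SEP) (hK22 : G_K22)
    (hK21 : G_K21) {α : Type} [m0 : MeasurableSpace α] {μ : Measure α}
    [IsProbabilityMeasure μ] {T : α ≃ᵐ α} {a b : ℕ → ℕ} (hW : Wp a b) (ha : StrictMono a)
    (hb : StrictMono b) (hT : MeasurePreserving (⇑T) μ μ) {f g : α → ℝ} (hf : Bd f) (hg : Bd g)
    (h : TailSing μ T f) : ConvI μ T a b f g := by
  obtain ⟨A, hA, hs⟩ := h
  exact @convI_tail' hEF hET hZP hFZ hKM hREV hAPX hSEP hK22 hK21 α A m0 μ _ T a b hW ha hb hT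
    f g hf hg hA hs

theorem convI_all (hEF : S_EF) (hET : G_ET) (hZP : G_ZP) (hWSY : G_WSY)
    (hFZ : G_FZ) (hKM : G_KM) (hREV : G_REV) (hAPX : G_APX) (hSEP : G_SEP) (hK22 : G_K22)
    (hK21 : G_K21) {α : Type} [m0 : MeasurableSpace α] {μ : Measure α}
    [IsProbabilityMeasure μ] {T : α ≃ᵐ α} {a b : ℕ → ℕ} (hW : Wp a b) (ha : StrictMono a)
    (hb : StrictMono b) (hT : MeasurePreserving (⇑T) μ μ) {f g : α → ℝ} (hf : MemLp f ⊤ μ)
    (hg : MemLp g ⊤ μ) (h : TailSing μ T f ∨ TailSing μ T g) : ConvI μ T a b f g := by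
  obtain ⟨c, f', hc, hf', hfe⟩ := exists_bd hf
  obtain ⟨d, g', hd, hg', hge⟩ := exists_bd hg
  refine ConvI.scale hT hfe hge ?_
  rcases h with h | h
  · exact convI_tail hEF hET hZP hFZ hKM hREV hAPX hSEP hK22 hK21 hW ha hb hT hf' hg'
      (h.scale hT hc hfe)
  · exact (convI_tail hEF hET hZP hFZ hKM hREV hAPX hSEP hK22 hK21 (hWSY a b hW) hb ha hT hg' hf'
      (h.scale hT hd hge)).swap

end Pool.Agent.Helper57.SS
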