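import Pool.Agent.Helper57.SS.Defs
import Pool.Agent.Helper49.RS.Main

/-!
# Project SS (MP_9a4587_an): goals (packets)

THEOREM.  For all `a, b ∈ (0,1)`, almost surely: for all commuting ergodic automorphisms `T, S` of a
probability space and all bounded `f, g` the averages `(1/N) ∑ f∘T^{a_k} g∘S^{b_k}` converge in `L²`
to `∫f ∫g`, if the spectral measure of `f` (or `g`) for `T` or `S`, or for some automorphism `R`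
commuting with both (then without atoms), is singular.

Idea.  If not, `h_j = A_{N_j}(f,g)` correlates with the products; the limit of the functionals
`(m,n) ↦ (1/N_j) ∑_k ∫ h_j · R^m T^{a_k} f · R^n S^{b_k} g` is the Fourier transform of a complex
measure `τ` on the torus with `τ ≪ σ_f × σ_g`, image under `(s,s+t)` `≪ σ_f × σ_h`, image under
`(t,s+t)` `≪ σ_g × σ_h` (the three processes are pairwise independent in the limit).  Such a `τ`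
vanishes if `σ_f` is singular and has no atoms (`G_LH`): otherwise for some `ν ≪ σ_f` the
translations moving `ν` by at most `1/4` contain an interval.
-/

set_option autoImplicit false

namespace Pool.Agent.Helper57.SS

open MeasureTheory ProbabilityTheory Filter Topology
open scoped ComplexConjugate

/-! ## Part H: the measure lemma -/

/-- (SHB).  (1) is clear.  Two-sided form (5): apply the definition to the complement of `A` (`ν` is a probability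
measure).  (2): `(x ↦ x - d)⁻¹ A = B` satisfies `(x ↦ x + d)⁻¹ B = A`; by (5) for `B`: `ν B ≤ ν A + ε`.  (3):
`ν {x : x+d+d' ∈ A} = ν ((·+d)⁻¹ ((·+d')⁻¹ A)) ≤ ν ((·+d')⁻¹ A) + ε ≤ ν A + ε + ε'`.  (6) closed: by inner
regularity `d ∈ Sh ν ε` iff for all compact `K`: `ν K ≤ ν {x : x - d ∈ K} + ε` and the same with `d`
replaced by `-d` (`ν` is a regular measure; `ν A = sup ν K`, `K ⊆ A` compact; use (5)); and for `K` compact the set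
`{d : ν K ≤ ν {x : x - d ∈ K} + ε}` is closed: if `d_k → d` then `limsup 1_{x - d_k ∈ K} ≤ 1_{x - d ∈ K}` pointwise
(`K` closed), so `limsup ν{x : x-d_k ∈ K} ≤ ν{x : x-d ∈ K}` (reverse Fatou, e.g. Fatou for the complements). -/
def G_SHB : Prop := ∀ (ν : Measure Ci) [IsProbabilityMeasure ν] (ε ε' : ℝ),
  (0 ≤ ε → (0 : Ci) ∈ Sh ν ε) ∧ (∀ d, d ∈ Sh ν ε → -d ∈ Sh ν ε) ∧
  (∀ d d', d ∈ Sh ν ε → d' ∈ Sh ν ε' → d + d' ∈ Sh ν (ε + ε')) ∧ (ε ≤ ε' → Sh ν ε ⊆ Sh ν ε') ∧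
  (∀ d, d ∈ Sh ν ε → ∀ A, MeasurableSet A → ν.real A ≤ ν.real ((fun x => x + d) ⁻¹' A) + ε) ∧
  IsClosed (Sh ν ε)

/-- (SML).  The set `{x : x - t ∈ Sh ν ε}` has positive measure for a measure without atoms, so it is infinite; by
compactness of `Ci` it contains two distinct points `x, x'` at distance `≤ min η (1/4)`; `x - x' = (y : Ci)` with
`0 < |y| ≤ η` real, and `x - x' = (x-t) - (x'-t) ∈ Sh ν (2ε)`; the same for `-y`. -/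
def G_SML : Prop := G_SHB → ∀ (ν : Measure Ci) [IsProbabilityMeasure ν] (ε : ℝ) (t : Ci),
  (∀ z, ν {z} = 0) → ν {x | x - t ∈ Sh ν ε} ≠ 0 → ∀ η : ℝ, 0 < η →
  ∃ x : ℝ, 0 < x ∧ x ≤ η ∧ (x : Ci) ∈ Sh ν (2 * ε)

/-- (COV).  `T_m = {t : 1/m ≤ ν{x : x - t ∈ Sh ν ε}}` increases to the complement of the exceptional set
(measurable: `t ↦ ν{x : x - t ∈ Sh ν ε}` is measurable, `Sh` is closed), so `ν T_m ≥ 1 - 2ε` for some `m`.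
A family of points of `T_m` with pairwise disjoint sets `t + Sh ν ε` has at most `m` members; let `D₀` be one with the
maximal number of members.  Every `t ∈ T_m` satisfies `t - t_j ∈ Sh ν (2ε)` for some `t_j ∈ D₀` (if `t + Sh` meets
`t_j + Sh` then `t - t_j` is a difference of two elements of `Sh ν ε`; if `t` is disjoint from all, the family is not
maximal).  `K = {t : ∃ t_j ∈ D₀, t - t_j ∈ Sh ν (2ε)}` is closed and `ν K ≥ 1 - 2ε ≥ 3/4`.  If `d ∈ Sh ν (1/4)` then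
`ν {x : x + d ∈ K} ≥ ν K - 1/4 ≥ 1/2`, so there is `x` with `x ∈ K`, `x + d ∈ K`; `x - t_i, x + d - t_j ∈ Sh ν (2ε)`,
`d - (t_j - t_i) ∈ Sh ν (4ε)`.  `D` = the differences of `D₀`. -/
def G_COV : Prop := G_SHB → ∀ (ν : Measure Ci) [IsProbabilityMeasure ν] (ε : ℝ), 0 < ε → ε ≤ 1 / 8 →
  ν.real {t | ν {x | x - t ∈ Sh ν ε} = 0} ≤ ε →
  ∃ D : Finset Ci, ∀ d ∈ Sh ν (1 / 4), ∃ e ∈ D, d - e ∈ Sh ν (4 * ε)

/-- (GAP).  Otherwise there are real `x_k → 0` with `(x_k) ∈ Sh ν (1/4)`, `∉ Sh ν (8ε)`.  Infinitely many `k` have the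
same `e ∈ D`; for `k, l` among them `x_k - x_l = (x_k - e) - (x_l - e) ∈ Sh ν (8ε)`; let `l → ∞`: `x_k ∈ Sh ν (8ε)` as
this set is closed. -/
def G_GAP : Prop := G_SHB → ∀ (ν : Measure Ci) [IsProbabilityMeasure ν] (ε : ℝ) (D : Finset Ci),
  (∀ d ∈ Sh ν (1 / 4), ∃ e ∈ D, d - e ∈ Sh ν (4 * ε)) →
  ∃ η : ℝ, 0 < η ∧ ∀ x : ℝ, |x| ≤ η → (x : Ci) ∈ Sh ν (1 / 4) → (x : Ci) ∈ Sh ν (8 * ε)

/-- (LOC).  Let `0 < x ≤ η` (for `x < 0` use `-x`).  For `0 < e ≤ η'` with `(e) ∈ Sh ν (2ε) ⊆ Sh ν (8ε)`, `e ≤ x`: by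
induction `(j e) ∈ Sh ν (8ε)` for all `j` with `j e ≤ x`: `(j+1) e ∈ Sh ν (16ε) ⊆ Sh ν (1/4)`, so in `Sh ν (8ε)` by the
third hypothesis.  With `j = ⌊x/e⌋`, `|x - j e| ≤ η'`.  Let `η' → 0`; `Sh ν (8ε)` is closed. -/
def G_LOC : Prop := G_SHB → ∀ (ν : Measure Ci) [IsProbabilityMeasure ν] (ε η : ℝ), 0 ≤ ε →
  16 * ε ≤ 1 / 4 → 0 < η →
  (∀ x : ℝ, |x| ≤ η → (x : Ci) ∈ Sh ν (1 / 4) → (x : Ci) ∈ Sh ν (8 * ε)) →
  (∀ η' : ℝ, 0 < η' → ∃ x : ℝ, 0 < x ∧ x ≤ η' ∧ (x : Ci) ∈ Sh ν (2 * ε)) →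
  ∀ x : ℝ, |x| ≤ η → (x : Ci) ∈ Sh ν (1 / 4)

/-- (SNG).  Let `Z` be a Lebesgue null set with `ν Zᶜ = 0`.  For `|x| ≤ η`: `ν {y : y - x ∈ Z} ≥ 3/4` (`-x` and (5) of
`G_SHB`).  But `∫ ν {y : y - d ∈ Z} dd = ∫ |{d : y - d ∈ Z}| dν(y) = 0` (Tonelli, invariance of Haar measure), so it
vanishes for almost all `d`, a contradiction as `{(x : Ci) : |x| ≤ η}` has positive measure. -/
def G_SNG : Prop := G_SHB → ∀ (ν : Measure Ci) [IsProbabilityMeasure ν] (η : ℝ), 0 < η →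
  (∀ x : ℝ, |x| ≤ η → (x : Ci) ∈ Sh ν (1 / 4)) → ¬ ν ⟂ₘ (volume : Measure Ci)

/-- The fibre condition at `s`: translation by `s` maps `F(s,·) σ2` to `G(s,·) σ3`. -/
def Fib (σ2 σ3 : Measure Ci) (F G : Ci × Ci → ℝ) (s : Ci) : Prop :=
  Integrable (fun t => F (s, t)) σ2 ∧ Integrable (fun y => G (s, y)) σ3 ∧
  ∀ A : Set Ci, MeasurableSet A → ∫ t in {t | s + t ∈ A}, F (s, t) ∂σ2 = ∫ y in A, G (s, y) ∂σ3

/-- nonnegative, measurable, integrable -/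
def Dn (Θ : Measure (Ci × Ci)) (F : Ci × Ci → ℝ) : Prop := Measurable F ∧ (∀ z, 0 ≤ F z) ∧ Integrable F Θ

/-- (DIS).  Choose a countable π-system generating the Borel sets of `Ci`.  For `A` in it and every measurable `B`
apply the hypothesis to `B ×ˢ A` (Fubini): `∫_B (∫_{s+t ∈ A} F(s,t) dσ2 - ∫_A G(s,y) dσ3) dσ1(s) = 0`, so the
equality holds for almost every `s`, for all countably many `A` (and `A = univ`) at once; then for all measurable `A`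
(both sides are finite measures in `A`, `MeasureTheory.ext_of_generate_finite`). -/
def G_DIS : Prop := ∀ (σ1 σ2 σ3 : Measure Ci) [IsFiniteMeasure σ1] [IsFiniteMeasure σ2] [IsFiniteMeasure σ3]
  (F G : Ci × Ci → ℝ), Dn (σ1.prod σ2) F → Dn (σ1.prod σ3) G →
  (∀ A : Set (Ci × Ci), MeasurableSet A →
    ∫ z in {z : Ci × Ci | (z.1, z.1 + z.2) ∈ A}, F z ∂(σ1.prod σ2) = ∫ z in A, G z ∂(σ1.prod σ3)) →
  ∀ᵐ s ∂σ1, Fib σ2 σ3 F G s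

/-- (PICK).  Let `I(s) = ∫ F(s,t) dσ2(t)`, `∫ I dσ1 > 0`.  Approximate `F` in `L¹(σ1 × σ2)` and `G` in `L¹(σ1 × σ3)`
within `e` by functions of the form `H(s,t) = ∑_i 1_{A_i}(s) v_i(t)` (finite sums, `A_i` a measurable partition of `Ci`,
`v_i` integrable; the same partition for both): indicators of finite unions of rectangles are dense (or: separability of
`L¹(σ2)`, `L¹(σ3)`).  The set `bad = {s : ∫|F(s,·) - H(s,·)| dσ2 + ∫|G(s,·) - H'(s,·)| dσ3 > (δ/4) I(s)}` has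
`∫_bad I ≤ 4·2e/δ < ∫ I` for small `e`; so some `A_i \ bad ∩ {I > 0} ∩ good'` (`good' ⊆ good` measurable of full
measure) has positive measure; among its points those with `I(s) ∈ [c', 2c')` for some dyadic `c'` have positive
measure; this is `E`, `s0` any point of it.  For `s ∈ E`: `∫|F(s,·) - F(s0,·)| ≤ (δ/4)(I(s) + I(s0)) ≤ (δ/4) 3 I(s0)`. -/
def G_PICK : Prop := ∀ (σ1 σ2 σ3 : Measure Ci) [IsFiniteMeasure σ1] [IsFiniteMeasure σ2] [IsFiniteMeasure σ3]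
  (F G : Ci × Ci → ℝ) (δ : ℝ) (good : Set Ci), Dn (σ1.prod σ2) F → Dn (σ1.prod σ3) G → 0 < δ →
  (∀ᵐ s ∂σ1, s ∈ good) → 0 < ∫ z, F z ∂(σ1.prod σ2) →
  ∃ (s0 : Ci) (E : Set Ci), s0 ∈ good ∧ MeasurableSet E ∧ E ⊆ good ∧ σ1 E ≠ 0 ∧ 0 < ∫ t, F (s0, t) ∂σ2 ∧
    ∀ s ∈ E, ∫ t, |F (s, t) - F (s0, t)| ∂σ2 ≤ δ * ∫ t, F (s0, t) ∂σ2 ∧
      ∫ y, |G (s, y) - G (s0, y)| ∂σ3 ≤ δ * ∫ t, F (s0, t) ∂σ2

/-- (FIN).  `c = ∫ F(s0,t) dσ2`, `ν = (1/c) F(s0,·) σ2`, a probability measure `≪ σ2`.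
(i) For `s ∈ E`: `s - s0 ∈ Sh ν (2δ)`: `ν {x : x + s - s0 ∈ A} = (1/c) ∫_{t + s ∈ A + s0} F(s0,t) ≤
(1/c) ∫_{t + s ∈ A + s0} F(s,t) + δ = (1/c) ∫_{A+s0} G(s,y) + δ ≤ (1/c) ∫_{A + s0} G(s0,y) + 2δ =
(1/c) ∫_{s0 + t ∈ A + s0} F(s0,t) + 2δ = ν A + 2δ`.
(ii) Let `B = {t : ν{x : x - t ∈ Sh ν (2δ)} = 0}` (measurable, `Sh` closed) and
`N = {(t,y) : t ∈ B, y - t - s0 ∈ Sh ν (2δ), G(s0,y) > 0}`.  For `t ∈ B`:
`∫_{y - t - s0 ∈ Sh} G(s0,y) dσ3 = ∫_{x - t ∈ Sh} F(s0,x) dσ2 = c ν{x : x - t ∈ Sh} = 0`, so `σ3 N_t = 0`; hence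
`(σ2 × σ3) N = 0` and by hypothesis `∫_{(t,s+t) ∈ N} F d(σ1×σ2) = 0`.
(iii) `c σ1(E) ν(B) = ∫_E ∫_B F(s0,t) ≤ ∫_E ∫_B F(s,t) + δ c σ1(E)`; for `s ∈ E`, `t ∈ B` either `G(s0,s+t) > 0`,
then `(t,s+t) ∈ N` by (i), or `G(s0,s+t) = 0`; the second part is at most
`∫_E ∫_{G(s0,y) = 0} G(s,y) dσ3 dσ1 ≤ ∫_E ∫ |G(s,y) - G(s0,y)| ≤ δ c σ1(E)`.  So `ν B ≤ 2δ`. -/
def G_FIN : Prop := G_SHB → ∀ (σ1 σ2 σ3 : Measure Ci) [IsFiniteMeasure σ1] [IsFiniteMeasure σ2]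
  [IsFiniteMeasure σ3] (F G : Ci × Ci → ℝ) (δ : ℝ) (s0 : Ci) (E : Set Ci),
  Dn (σ1.prod σ2) F → Dn (σ1.prod σ3) G → 0 < δ →
  (∀ A : Set (Ci × Ci), MeasurableSet A → (σ2.prod σ3) A = 0 →
    ∫ z in {z : Ci × Ci | (z.2, z.1 + z.2) ∈ A}, F z ∂(σ1.prod σ2) = 0) →
  Fib σ2 σ3 F G s0 → MeasurableSet E → (∀ s ∈ E, Fib σ2 σ3 F G s) → σ1 E ≠ 0 → 0 < ∫ t, F (s0, t) ∂σ2 →
  (∀ s ∈ E, ∫ t, |F (s, t) - F (s0, t)| ∂σ2 ≤ δ * ∫ t, F (s0, t) ∂σ2 ∧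
      ∫ y, |G (s, y) - G (s0, y)| ∂σ3 ≤ δ * ∫ t, F (s0, t) ∂σ2) →
  ∃ ν : Measure Ci, IsProbabilityMeasure ν ∧ ν ≪ σ2 ∧
    ν.real {t | ν {x | x - t ∈ Sh ν (2 * δ)} = 0} ≤ 2 * δ

/-- The measure lemma. -/
def G_LH : Prop := ∀ (σ1 σ2 σ3 : Measure Ci) [IsFiniteMeasure σ1] [IsFiniteMeasure σ2] [IsFiniteMeasure σ3]
  (τ : Measure (Ci × Ci)) [IsFiniteMeasure τ], τ ≪ σ1.prod σ2 →
  τ.map (fun z => (z.1, z.1 + z.2)) ≪ σ1.prod σ3 → τ.map (fun z => (z.2, z.1 + z.2)) ≪ σ2.prod σ3 →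
  (∀ z, σ2 {z} = 0) → σ2 ⟂ₘ volume → τ = 0

/-- (LHA).  Suppose `τ ≠ 0`.  `F`, `G` = real Radon-Nikodym densities of `τ` for `σ1 × σ2` and of its image under
`(s,s+t)` for `σ1 × σ3` (everywhere nonnegative finite measurable versions, `(rnDeriv).toReal`).  `G_DIS` gives
`good = {s : Fib}` of full measure; `G_PICK` with `δ = 1/128`; `G_FIN` gives `ν`; it has no atoms (`≪ σ2`); some `t` is
not in the exceptional set (`1/64 < 1`): `G_SML` with `ε = 1/64`; `G_COV`, `G_GAP`, `G_LOC`, `G_SNG` give that `ν` is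
not singular, but `ν ≪ σ2 ⟂ volume`. -/
def G_LHA : Prop := G_SHB → G_SML → G_COV → G_GAP → G_LOC → G_SNG → G_DIS → G_PICK → G_FIN → G_LH

/-! ## Part R: representing the functional by a measure -/

/-- (REP).  The map `c ↦ ∑ c_p e2 p ∈ L²(Θ)`; the functional `c ↦ ∑ c_p φ_p` factors through it (the bound with
`c - c'`) and is bounded by `√C ‖·‖` on its range; extend it by Hahn-Banach (or by density) to `L²(Θ)` and use the Riesz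
representation theorem. -/
def G_REP : Prop := ∀ (Θ : Measure (Ci × Ci)) [IsFiniteMeasure Θ] (φ : ℤ × ℤ → ℂ) (C : ℝ),
  (∀ c : (ℤ × ℤ) →₀ ℂ, ‖c.sum fun p u => u * φ p‖ ^ 2 ≤ C * ∫ z, ‖c.sum fun p u => u * e2 p z‖ ^ 2 ∂Θ) →
  ∃ ρ : Ci × Ci → ℂ, MemLp ρ 2 Θ ∧ ∀ p, φ p = ∫ z, ρ z * e2 p z ∂Θ

/-- (UNI).  (a) linear combinations of the `e2 p`; (b) continuous `ψ`: these are dense in `C(Ci × Ci, ℂ)` by
Stone-Weierstrass (subalgebra, closed under conjugation, separating points), both sides are continuous for the sup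
norm; (c) indicators of closed sets are pointwise limits of bounded continuous functions; (d) π-λ: measurable sets;
(e) bounded measurable functions are uniform limits of simple functions.  Here `Θ1` lives on `Ci × Ci` too. -/
def G_UNI : Prop := ∀ (Θ1 Θ2 : Measure (Ci × Ci)) [IsFiniteMeasure Θ1] [IsFiniteMeasure Θ2]
  (A : Ci × Ci → Ci × Ci) (ρ1 ρ2 : Ci × Ci → ℂ), Measurable A → Integrable ρ1 Θ1 → Integrable ρ2 Θ2 →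
  (∀ p, ∫ z, ρ1 z * e2 p (A z) ∂Θ1 = ∫ z, ρ2 z * e2 p z ∂Θ2) →
  ∀ ψ : Ci × Ci → ℂ, Measurable ψ → (∃ C, ∀ z, ‖ψ z‖ ≤ C) →
    ∫ z, ρ1 z * ψ (A z) ∂Θ1 = ∫ z, ρ2 z * ψ z ∂Θ2

/-- (ACL).  Let `Θ2 E = 0`, `E` measurable.  `ρ1` measurable w.l.o.g.  Apply `G_UNI` to
`ψ z = 1_E(z) · conj(ρ1)/|ρ1| (A⁻¹ z)` (`0` where `ρ1 = 0`): `∫_{A⁻¹ E} |ρ1| dΘ1 = 0`.  `A⁻¹` is `B`. -/
def G_ACL : Prop := G_UNI → ∀ (Θ1 Θ2 : Measure (Ci × Ci)) [IsFiniteMeasure Θ1] [IsFiniteMeasure Θ2]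
  (A B : Ci × Ci → Ci × Ci) (ρ1 ρ2 : Ci × Ci → ℂ), Measurable A → Measurable B → (∀ z, B (A z) = z) →
  Integrable ρ1 Θ1 → Integrable ρ2 Θ2 →
  (∀ p, ∫ z, ρ1 z * e2 p (A z) ∂Θ1 = ∫ z, ρ2 z * e2 p z ∂Θ2) →
  (Θ1.withDensity fun z => ‖ρ1 z‖ₑ).map A ≪ Θ2

/-- (ATM).  `(1/M) ∑_{m<M} fourier(-m) θ fourier m s → 1_{s = θ}` (geometric sums), bounded by `1`; dominated
convergence: `∫_{s = θ} ρ(s,t) fourier n t = 0` for all `n`; so `∫ (1_{s=θ} ρ) e2 p = 0` for all `p`; `G_UNI` with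
`A = id`, `ρ2 = 0`, `ψ` = phase of `ρ`. -/
def G_ATM : Prop := G_UNI → ∀ (σ1 σ2 : Measure Ci) [IsFiniteMeasure σ1] [IsFiniteMeasure σ2]
  (ρ : Ci × Ci → ℂ) (φ : ℤ × ℤ → ℂ) (θ : Ci), Integrable ρ (σ1.prod σ2) →
  (∀ p, φ p = ∫ z, ρ z * e2 p z ∂(σ1.prod σ2)) →
  (∀ n : ℤ, Tendsto (fun M : ℕ => (M : ℂ)⁻¹ * ∑ m ∈ Finset.range M, fourier (-(m : ℤ)) θ * φ ((m : ℤ), n))
    atTop (𝓝 0)) →
  ((σ1.prod σ2).withDensity fun z => ‖ρ z‖ₑ) (Prod.fst ⁻¹' {θ}) = 0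

/-- The measure theorem: the three bounds and singularity of `σ1` imply `φ = 0`. -/
def G_MM : Prop := ∀ (σ1 σ2 σ3 : Measure Ci) [IsFiniteMeasure σ1] [IsFiniteMeasure σ2] [IsFiniteMeasure σ3]
  (φ : ℤ × ℤ → ℂ) (C : ℝ),
  (∀ c : (ℤ × ℤ) →₀ ℂ, ‖c.sum fun p u => u * φ p‖ ^ 2 ≤
    C * ∫ z, ‖c.sum fun p u => u * e2 p z‖ ^ 2 ∂(σ1.prod σ2)) →
  (∀ c : (ℤ × ℤ) →₀ ℂ, ‖c.sum fun p u => u * φ p‖ ^ 2 ≤
    C * ∫ z, ‖c.sum fun p u => u * e2 (p.1 - p.2, p.2) z‖ ^ 2 ∂(σ1.prod σ3)) →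
  (∀ c : (ℤ × ℤ) →₀ ℂ, ‖c.sum fun p u => u * φ p‖ ^ 2 ≤
    C * ∫ z, ‖c.sum fun p u => u * e2 (p.2 - p.1, p.1) z‖ ^ 2 ∂(σ2.prod σ3)) →
  σ1 ⟂ₘ volume →
  (∀ θ : Ci, σ1 {θ} = 0 ∨ ∀ n : ℤ, Tendsto (fun M : ℕ => (M : ℂ)⁻¹ * ∑ m ∈ Finset.range M,
    fourier (-(m : ℤ)) θ * φ ((m : ℤ), n)) atTop (𝓝 0)) →
  ∀ p, φ p = 0

/-- (MMA).  `G_REP` with the first bound: `ρ`.  Second bound: for `φ'(q) = φ(q.1 + q.2, q.2)` and `c'` put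
`c = c'.mapDomain (fun q => (q.1+q.2, q.2))`: the hypothesis of `G_REP` for `φ'` on `σ1 × σ3`: `ρ'`; with
`A z = (z.1, z.1+z.2)`: `e2 q (A z) = e2 (q.1+q.2, q.2) z`, so `∫ ρ e2 q (A z) = φ' q = ∫ ρ' e2 q`, and `G_ACL` gives
`(|ρ| σ1×σ2).map A ≪ σ1 × σ3`.  Third bound: `φ''(q) = φ(q.2, q.1+q.2)`, `A z = (z.2, z.1+z.2)`.  Let
`τ = |ρ| σ1×σ2`, `σ1' = σ1` restricted to the complement of its countably many atoms; `G_ATM`: `τ` does not charge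
`{θ} × Ci` for the atoms `θ`, so `τ ≪ σ1' × σ2` and the image under `(s,s+t)` is `≪ σ1' × σ3`.  Apply `G_LH` to
`(σ2, σ1', σ3)` and the image of `τ` under the exchange of coordinates: `τ = 0`, so `ρ = 0` almost everywhere, `φ = 0`. -/
def G_MMA : Prop := G_LH → G_REP → G_UNI → G_ACL → G_ATM → G_MM

/-! ## Part S: spectral measures, ergodic averages -/

/-- (HZP).  `σ_N` = Haar measure times the density
`P(s,t) = N⁻² ∑_{i,i'<N} ∑_{j,j'<N} φ(i-i', j-j') e2(-(i-i'), -(j-j'))(s,t)`.  It is real and `≥ 0`: with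
`u_{ij} = e2(-i,-j)(s,t) = x + iy` it is `∑ u_{ij} conj u_{i'j'} φ(..)/N²`, and for even real positive definite `φ` the
sum with complex coefficients is the sum for the real parts plus the sum for the imaginary parts.  Orthogonality of
characters: `∫ e2 p dσ_N = φ(p) (1-|p.1|/N)⁺ (1-|p.2|/N)⁺` (number of pairs `(i,i')` with difference `p.1` over `N`). -/
def G_HZP : Prop := ∀ φ : ℤ × ℤ → ℝ, (∀ p, φ (-p) = φ p) →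
  (∀ c : (ℤ × ℤ) →₀ ℝ, 0 ≤ c.sum fun p u => c.sum fun q v => u * v * φ (p - q)) → ∀ N : ℕ, 0 < N →
  ∃ σ : Measure (Ci × Ci), IsFiniteMeasure σ ∧ ∀ p, ∫ z, e2 p z ∂σ =
    ((φ p * (max 0 (1 - |(p.1 : ℝ)| / N) * max 0 (1 - |(p.2 : ℝ)| / N)) : ℝ) : ℂ)

/-- (HZ), Herglotz for `ℤ²`.  `φ 0 ≥ 0`.  If `φ 0 = 0` then all `σ_N` have mass `0` and all Fourier coefficients vanish:
`σ = 0` (`φ p = lim ∫ e2 p dσ_N = 0`).  Otherwise `σ_N / φ 0` are probability measures on a compact space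
(`CompactSpace (ProbabilityMeasure _)`): a cluster point (limit along an ultrafilter `≤ atTop`) has the Fourier
coefficients `lim φ(p)/φ(0) (1-|p.1|/N)(1-|p.2|/N)`. -/
def G_HZ : Prop := ∀ φ : ℤ × ℤ → ℝ, (∀ p, φ (-p) = φ p) →
  (∀ c : (ℤ × ℤ) →₀ ℝ, 0 ≤ c.sum fun p u => c.sum fun q v => u * v * φ (p - q)) →
  ∃ σ : Measure (Ci × Ci), IsFiniteMeasure σ ∧ ∀ p, ∫ z, e2 p z ∂σ = ((φ p : ℝ) : ℂ)

/-- (HZC): the limit argument. -/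
def G_HZC : Prop := G_HZP → G_HZ

/-- (HZ1), one variable: `φ p = r p.1` is positive definite (`mapDomain Prod.fst`), take the first marginal. -/
def G_HZ1 : Prop := G_HZ → ∀ r : ℤ → ℝ, (∀ k, r (-k) = r k) →
  (∀ c : ℤ →₀ ℝ, 0 ≤ c.sum fun p u => c.sum fun q v => u * v * r (p - q)) →
  ∃ σ : Measure Ci, IsFiniteMeasure σ ∧ ∀ k : ℤ, ∫ z, fourier k z ∂σ = ((r k : ℝ) : ℂ)

/-- (ZP), integer powers. -/
def G_ZP : Prop := ∀ (α : Type) [MeasurableSpace α] (R : α ≃ᵐ α), (∀ x, zp R 0 x = x) ∧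
  (∀ (n : ℕ) x, zp R n x = (⇑R)^[n] x) ∧ (∀ (n : ℕ) x, zp R (-(n : ℤ)) x = (⇑R.symm)^[n] x) ∧
  (∀ m n x, zp R (m + n) x = zp R m (zp R n x)) ∧ (∀ m, Measurable (zp R m)) ∧
  (∀ μ : Measure α, MeasurePreserving (⇑R) μ μ → ∀ m, MeasurePreserving (zp R m) μ μ) ∧
  (∀ T : α → α, (∀ x, R (T x) = T (R x)) → ∀ m x, zp R m (T x) = T (zp R m x))

/-- (VN), mean ergodic theorem for an ergodic map in `L²` (`ContinuousLinearMap.tendsto_birkhoffAverage_orthogonalProjection`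
for the Koopman operator; the fixed space consists of the constants), or via Birkhoff's theorem in
`Pool.Agent.Helper49.RS.Birkhoff`. -/
def G_VN : Prop := ∀ (α : Type) [MeasurableSpace α] (μ : Measure α) [IsProbabilityMeasure μ] (U : α → α),
  Ergodic U μ → ∀ G : α → ℝ, MemLp G 2 μ →
  Tendsto (fun n : ℕ => eLpNorm (fun x => (n : ℝ)⁻¹ * ∑ m ∈ Finset.range n, G (U^[m] x) - ∫ y, G y ∂μ) 2 μ)
    atTop (𝓝 0)

/-- (VNT), twisted mean ergodic theorem: the contraction `u ↦ fourier (-1) θ · u ∘ T` of `L²(μ;ℂ)`. -/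
def G_VNT : Prop := ∀ (α : Type) [MeasurableSpace α] (μ : Measure α) [IsProbabilityMeasure μ] (T : α → α),
  MeasurePreserving T μ μ → ∀ f : α → ℝ, Bd f → ∀ θ : Ci, ∃ ψ : α → ℂ, MemLp ψ 2 μ ∧
  (∀ᵐ x ∂μ, ψ (T x) = fourier 1 θ * ψ x) ∧
  Tendsto (fun M : ℕ => eLpNorm (fun x => (M : ℂ)⁻¹ * ∑ m ∈ Finset.range M,
    fourier (-(m : ℤ)) θ * ((f (T^[m] x) : ℝ) : ℂ) - ψ x) 2 μ) atTop (𝓝 0)

/-- (EL).  Replace `G` by `G - ∫G`, so `∫ G = 0`.  `φ(p) = ∫ G(zp U p.1 (zp V p.2 x)) G(x)` is even and positive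
definite (`∑ c_p c_q φ(p-q) = ∫ (∑ c_p G∘U^{p.1}∘V^{p.2})²`); `G_HZ`: `σ`.  Then
`‖(1/N) ∑ G∘U^{a_k}∘V^{b_k}‖² = ∫ |(1/N) ∑ e2(a_k,b_k)|² dσ → σ({0})` by `Wp` and dominated convergence.  And
`σ({z.1 = 0}) = lim (1/n) ∑_{m<n} φ(m,0) = 0` by `G_VN` (`U` ergodic, `∫ G = 0`). -/
def G_EL : Prop := G_HZ → G_ZP → G_VN → ∀ a b : ℕ → ℕ, Wp a b →
  ∀ (α : Type) [MeasurableSpace α] (μ : Measure α) [IsProbabilityMeasure μ] (U V : α ≃ᵐ α),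
  Ergodic (⇑U) μ → MeasurePreserving (⇑V) μ μ → (∀ x, U (V x) = V (U x)) → ∀ G : α → ℝ, MemLp G 2 μ →
  Tendsto (fun N : ℕ => eLpNorm (fun x => (N : ℝ)⁻¹ * ∑ k ∈ Finset.range N,
    G ((⇑U)^[a k] ((⇑V)^[b k] x)) - ∫ y, G y ∂μ) 2 μ) atTop (𝓝 0)

/-- (ELT), twisted.  `φ(p) = ∫ G(zp S p.2 x) G(x)` (`G_HZ1`): `σ` on `Ci`, `‖(1/N) ∑ e(a_kθ) G∘S^{b_k}‖² =
∫ |(1/N) ∑ e2(a_k,b_k)(θ,t)|² dσ(t) → σ({0}) 1_{θ=0} = 0`; `σ({0}) = |∫G|² = 0` by `G_VN`. -/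
def G_ELT : Prop := G_HZ → G_HZ1 → G_ZP → G_VN → ∀ a b : ℕ → ℕ, Wp a b →
  ∀ (α : Type) [MeasurableSpace α] (μ : Measure α) [IsProbabilityMeasure μ] (S : α ≃ᵐ α),
  Ergodic (⇑S) μ → ∀ G : α → ℝ, MemLp G 2 μ → ∫ x, G x ∂μ = 0 → ∀ θ : Ci,
  Tendsto (fun N : ℕ => eLpNorm (fun x => (N : ℂ)⁻¹ * ∑ k ∈ Finset.range N,
    fourier (a k : ℤ) θ * ((G ((⇑S)^[b k] x) : ℝ) : ℂ)) 2 μ) atTop (𝓝 0)

/-- (WSY): `Wp` is symmetric. -/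
def G_WSY : Prop := ∀ a b : ℕ → ℕ, Wp a b → Wp b a

/-- (E3).  `∫ F(T^{a_k}x) G(S^{b_k}x) = ∫ F(x) G(S^{b_k} (T⁻¹)^{a_k} x)` (invariance), `G_EL` for
`U = T⁻¹`, `V = S`. -/
def G_E3 : Prop := G_EL → G_HZ → G_ZP → G_VN → ∀ a b : ℕ → ℕ, Wp a b →
  ∀ (α : Type) [MeasurableSpace α] (μ : Measure α) [IsProbabilityMeasure μ] (T S : α ≃ᵐ α),
  Ergodic (⇑T) μ → Ergodic (⇑S) μ → (∀ x, T (S x) = S (T x)) → ∀ F G : α → ℝ, Bd F → Bd G →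
  Tendsto (fun N : ℕ => (N : ℝ)⁻¹ * ∑ k ∈ Finset.range N, ∫ x, F ((⇑T)^[a k] x) * G ((⇑S)^[b k] x) ∂μ)
    atTop (𝓝 ((∫ x, F x ∂μ) * ∫ x, G x ∂μ))

/-- (E1).  Uniform in the bounded function `H`: `|(1/N) ∑ ∫ H F∘T^{a_k} - ∫H ∫F| ≤ ‖(1/N) ∑ F∘T^{a_k} - ∫F‖_1`;
`G_EL` for `U = T`, `V = id` (`MeasurableEquiv.refl`). -/
def G_E1 : Prop := G_EL → G_HZ → G_ZP → G_VN → ∀ a b : ℕ → ℕ, Wp a b →
  ∀ (α : Type) [MeasurableSpace α] (μ : Measure α) [IsProbabilityMeasure μ] (T : α ≃ᵐ α),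
  Ergodic (⇑T) μ → ∀ F : α → ℝ, Bd F → ∀ ε : ℝ, 0 < ε → ∀ᶠ N : ℕ in atTop, ∀ H : α → ℝ, Bd H →
  |(N : ℝ)⁻¹ * ∑ k ∈ Finset.range N, ∫ x, H x * F ((⇑T)^[a k] x) ∂μ - (∫ x, H x ∂μ) * ∫ x, F x ∂μ| ≤ ε

/-- (SPZ): the spectral measure at negative integers (`f` real: both sides are symmetric, `fourier (-n) = conj`). -/
def G_SPZ : Prop := G_ZP → ∀ (α : Type) [MeasurableSpace α] (μ : Measure α) [IsProbabilityMeasure μ]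
  (R : α ≃ᵐ α), MeasurePreserving (⇑R) μ μ → ∀ f : α → ℝ, Bd f → ∀ σ : Measure Ci, IsSpec (⇑R) μ f σ →
  ∀ m : ℤ, ∫ z, fourier m z ∂σ = ((rr R μ f m : ℝ) : ℂ)

/-- (RPD): `rr` is even and positive definite. -/
def G_RPD : Prop := G_ZP → ∀ (α : Type) [MeasurableSpace α] (μ : Measure α) [IsProbabilityMeasure μ]
  (R : α ≃ᵐ α), MeasurePreserving (⇑R) μ μ → ∀ f : α → ℝ, Bd f → (∀ k, rr R μ f (-k) = rr R μ f k) ∧
  (∀ k, |rr R μ f k| ≤ 1) ∧ ∀ c : ℤ →₀ ℝ, 0 ≤ c.sum fun p u => c.sum fun q v => u * v * rr R μ f (p - q)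

/-- (FORM): expand the square and use Fubini. -/
def G_FORM : Prop := ∀ (σ σ' : Measure Ci) [IsFiniteMeasure σ] [IsFiniteMeasure σ'] (r r' : ℤ → ℝ),
  (∀ k : ℤ, ∫ z, fourier k z ∂σ = ((r k : ℝ) : ℂ)) → (∀ k : ℤ, ∫ z, fourier k z ∂σ' = ((r' k : ℝ) : ℂ)) →
  ∀ (L1 L2 : ℤ × ℤ → ℤ) (c : (ℤ × ℤ) →₀ ℂ),
  (c.sum fun p u => c.sum fun q v => u * conj v * ((r (L1 p - L1 q) * r' (L2 p - L2 q) : ℝ) : ℂ)).re =
    ∫ z, ‖c.sum fun p u => u * e2 (L1 p, L2 p) z‖ ^ 2 ∂(σ.prod σ')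

/-! ## Part F: the limit functional -/

/-- (LF1).  `|∑ c_p φ_p| = lim |(1/N) ∑_k ∫ h ∑_p c_p f∘R^m∘T^{a_k} g∘R^n∘S^{b_k}| ≤
lim ((1/N) ∑_k ∫ |∑_p c_p f∘R^m∘T^{a_k} g∘R^n∘S^{b_k}|²)^{1/2}` (`|h| ≤ 1`, Jensen/Cauchy-Schwarz twice).  Expand:
`∫ |..|² = ∑ c_p conj c_q ∫ (f∘R^{m} f∘R^{m'})∘T^{a_k} (g∘R^{n} g∘R^{n'})∘S^{b_k}` (commutation), whose average over
`k < N_j` tends to `∫ f∘R^m f∘R^{m'} ∫ g∘R^n g∘R^{n'} = rr f (m-m') rr g (n-n')` by `G_E3`'s conclusion. -/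
def G_LF1 : Prop := G_E3 → G_EL → G_HZ → G_ZP → G_VN → ∀ (α : Type) [MeasurableSpace α] (μ : Measure α)
  [IsProbabilityMeasure μ] (T S R : α ≃ᵐ α) (a b : ℕ → ℕ) (f g : α → ℝ) (U : Ultrafilter ℕ) (Nj : ℕ → ℕ)
  (h : ℕ → α → ℝ) (φ : ℤ × ℤ → ℝ) (r : ℤ → ℝ), LimF μ T S R a b f g U Nj h φ r → ∀ c : (ℤ × ℤ) →₀ ℂ,
  ‖c.sum fun p u => u * ((φ p : ℝ) : ℂ)‖ ^ 2 ≤ (c.sum fun p u => c.sum fun q v =>
    u * conj v * ((rr R μ f (p.1 - q.1) * rr R μ g (p.2 - q.2) : ℝ) : ℂ)).re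

/-- (LF2).  Apply `R^{-n}` inside the integral: `∫ h∘R^{-n} · f∘R^{m-n}∘T^{a_k} · g∘S^{b_k}`; `|g| ≤ 1`;
`|∑ c_p φ_p|² ≤ lim (1/N) ∑_k ∫ |∑_p c_p h∘R^{-n} f∘R^{m-n}∘T^{a_k}|² =
lim ∑ c_p conj c_q (1/N) ∑_k ∫ (h∘R^{-n} h∘R^{-n'}) (f∘R^{m-n} f∘R^{m'-n'})∘T^{a_k}`; by `G_E1` (uniform in
`H = h_j∘R^{-n} h_j∘R^{-n'}`) this is `∑ c_p conj c_q rr h_j (n-n') rr f ((m-n)-(m'-n')) + o(1)`. -/
def G_LF2 : Prop := G_E1 → G_EL → G_HZ → G_ZP → G_VN → G_RPD → ∀ (α : Type) [MeasurableSpace α]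
  (μ : Measure α)
  [IsProbabilityMeasure μ] (T S R : α ≃ᵐ α) (a b : ℕ → ℕ) (f g : α → ℝ) (U : Ultrafilter ℕ) (Nj : ℕ → ℕ)
  (h : ℕ → α → ℝ) (φ : ℤ × ℤ → ℝ) (r : ℤ → ℝ), LimF μ T S R a b f g U Nj h φ r → ∀ c : (ℤ × ℤ) →₀ ℂ,
  ‖c.sum fun p u => u * ((φ p : ℝ) : ℂ)‖ ^ 2 ≤ (c.sum fun p u => c.sum fun q v =>
    u * conj v * ((rr R μ f ((p.1 - p.2) - (q.1 - q.2)) * r (p.2 - q.2) : ℝ) : ℂ)).re

/-- (LF3).  As `G_LF2` with `R^{-m}`, `|f| ≤ 1` and `G_E1` for `(b, a, S)` (`G_WSY`). -/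
def G_LF3 : Prop := G_E1 → G_EL → G_HZ → G_ZP → G_VN → G_RPD → G_WSY → ∀ (α : Type) [MeasurableSpace α]
  (μ : Measure α)
  [IsProbabilityMeasure μ] (T S R : α ≃ᵐ α) (a b : ℕ → ℕ) (f g : α → ℝ) (U : Ultrafilter ℕ) (Nj : ℕ → ℕ)
  (h : ℕ → α → ℝ) (φ : ℤ × ℤ → ℝ) (r : ℤ → ℝ), LimF μ T S R a b f g U Nj h φ r → ∀ c : (ℤ × ℤ) →₀ ℂ,
  ‖c.sum fun p u => u * ((φ p : ℝ) : ℂ)‖ ^ 2 ≤ (c.sum fun p u => c.sum fun q v =>
    u * conj v * ((rr R μ g ((p.2 - p.1) - (q.2 - q.1)) * r (p.1 - q.1) : ℝ) : ℂ)).re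

/-- (LF5), the atoms, `R = T`, `∫ g = 0`.  `f_M = (1/M) ∑_{m<M} e(-mθ) f∘T^m → ψ` in `L²` (`G_VNT`),
`ψ∘T = e(θ) ψ`, so `ψ∘T^{a_k} = e(a_k θ) ψ` a.e.  For all `j`:
`|(1/M) ∑_m e(-mθ) PhN(h_j, N_j)(m,n) - (1/N_j) ∑_k ∫ h_j ψ∘T^{a_k} g∘T^n∘S^{b_k}| ≤ ‖f_M - ψ‖_1`, and
`|(1/N) ∑_k ∫ h_j e(a_kθ) ψ g_n∘S^{b_k}| ≤ ‖ψ‖_2 ‖(1/N) ∑ e(a_kθ) g_n∘S^{b_k}‖_2 → 0` by `G_ELT` for
`g_n = g∘T^n` (commutation; `∫ g_n = 0`).  So `|(1/M) ∑_m e(-mθ) φ(m,n)| ≤ ‖f_M - ψ‖_1 → 0`. -/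
def G_LF5 : Prop := G_ELT → G_HZ → G_HZ1 → G_ZP → G_VN → G_VNT → ∀ (α : Type) [MeasurableSpace α]
  (μ : Measure α) [IsProbabilityMeasure μ] (T S : α ≃ᵐ α) (a b : ℕ → ℕ) (f g : α → ℝ) (U : Ultrafilter ℕ)
  (Nj : ℕ → ℕ) (h : ℕ → α → ℝ) (φ : ℤ × ℤ → ℝ) (r : ℤ → ℝ), LimF μ T S T a b f g U Nj h φ r →
  ∫ x, g x ∂μ = 0 → ∀ (θ : Ci) (n : ℤ), Tendsto (fun M : ℕ => (M : ℂ)⁻¹ * ∑ m ∈ Finset.range M,
    fourier (-(m : ℤ)) θ * ((φ ((m : ℤ), n) : ℝ) : ℂ)) atTop (𝓝 0)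

/-- (LF6), existence.  If `∫ (Av N)²` does not tend to `0` there are `c > 0` and `Nj → ∞` with
`c ≤ ∫ (Av (Nj j))²`; `h j = Av (Nj j)`, bounded by `1`; `U` any ultrafilter `≤ atTop` (`Filter.hyperfilter`); the
limits exist as `|PhN| ≤ 1`, `|rr| ≤ 1` (compactness of `[-1,1]`); `PhN (h j) (Nj j) (0,0) = ∫ (Av (Nj j))²`. -/
def G_LF6 : Prop := G_ZP → G_RPD → ∀ (α : Type) [MeasurableSpace α] (μ : Measure α) [IsProbabilityMeasure μ]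
  (T S R : α ≃ᵐ α) (a b : ℕ → ℕ) (f g : α → ℝ), Wp a b → Sys μ T S R → Bd f → Bd g →
  ¬ Tendsto (fun N => ∫ x, (Av T S a b f g N x) ^ 2 ∂μ) atTop (𝓝 0) →
  ∃ (U : Ultrafilter ℕ) (Nj : ℕ → ℕ) (h : ℕ → α → ℝ) (φ : ℤ × ℤ → ℝ) (r : ℤ → ℝ),
    LimF μ T S R a b f g U Nj h φ r ∧ 0 < φ 0

/-- (LF7): `r` is even and positive definite (limits of `G_RPD`). -/
def G_LF7 : Prop := G_RPD → G_ZP → ∀ (α : Type) [MeasurableSpace α] (μ : Measure α) [IsProbabilityMeasure μ]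
  (T S R : α ≃ᵐ α) (a b : ℕ → ℕ) (f g : α → ℝ) (U : Ultrafilter ℕ) (Nj : ℕ → ℕ)
  (h : ℕ → α → ℝ) (φ : ℤ × ℤ → ℝ) (r : ℤ → ℝ), LimF μ T S R a b f g U Nj h φ r →
  (∀ k, r (-k) = r k) ∧ ∀ c : ℤ →₀ ℝ, 0 ≤ c.sum fun p u => c.sum fun q v => u * v * r (p - q)

/-! ## Part W: the random sequences satisfy `Wp` -/

open Pool.Agent.Helper49.RS

/-- the exponentials -/
noncomputable def ex (s t : ℝ) (m n : ℕ) : ℂ := Complex.exp (2 * Real.pi * Complex.I * (s * m + t * n))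

/-- (WC), concentration.  Enough: `ε = 1/(j+1)`, `D ≥ 1` fixed, `s, t ∈ [0,1]` (periodicity).  Use
`Pool.Agent.Helper49.RS.bern_bc` with the grid `s, t ∈ {i/L : i ≤ L}`, `L = (M+2)^(D+3)`, four sign/part choices,
`Z = λ · (± Re or Im of ex s t (A p) (p+1))`, `λ = (M+1)^(-(1-b)/4)`, `K = (2D+10) log(M+2)` (summable):
a.s. eventually for all grid points `λ ∑ (X-q) c ≤ λ² ∑ q + K`, so `∑ (X-q) c ≤ λ ∑ q + K/λ = o(M^(1-b))`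
(`∑_{n<M} prb b n ≤ C M^(1-b)`).  For other `s, t` take the nearest grid point: the difference is at most
`∑_{n<M} 2π (A_n + n + 1)/L ≤ 2π M (M^D + M + 1)/L → 0`. -/
def G_WC : Prop := ∀ (b : ℝ), 0 < b → b < 1 → ∀ (Ω : Type) [MeasurableSpace Ω] (P : Measure Ω)
  [IsProbabilityMeasure P] (X : ℕ → Ω → ℝ) (F : ℕ → MeasurableSpace Ω) (A : ℕ → Ω → ℕ),
  PredBern P X (prb b) F → (∀ n, Measurable[F n] (A n)) → ∀ᵐ ω ∂P, ∀ D : ℕ,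
  (∀ᶠ M : ℕ in atTop, ∀ n < M, A n ω ≤ M ^ D) → ∀ ε : ℝ, 0 < ε → ∀ᶠ M : ℕ in atTop, ∀ s t : ℝ,
  ‖∑ n ∈ Finset.range M, (((X n ω - prb b n : ℝ)) : ℂ) * ex s t (A n ω) (n + 1)‖ ≤ ε * (M : ℝ) ^ (1 - b)

/-- (WG), growth, from `Pool.Agent.Helper49.RS.window_fact` (`i = 0`, `j = L`) and `∑_{n<L} prb b n ≥ c L^(1-b)`;
`count (nth k) = k`. -/
def G_WG : Prop := ∀ (b : ℝ), 0 < b → b < 1 → ∀ (Ω : Type) [MeasurableSpace Ω] (P : Measure Ω)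
  [IsProbabilityMeasure P] (ξ : ℕ → Ω → ℕ) (F : ℕ → MeasurableSpace Ω),
  PredBern P (fun n ω => ind (pr ξ ω) n) (prb b) F → ∀ᵐ ω ∂P,
  {n | ξ n ω = 1}.Infinite ∧ (∃ c : ℝ, 0 < c ∧ ∀ᶠ M : ℕ in atTop, c * (M : ℝ) ^ (1 - b) ≤ Nat.count (pr ξ ω) M) ∧
  ∃ D : ℕ, ∀ᶠ k : ℕ in atTop, Nat.nth (pr ξ ω) k + 1 ≤ k ^ D

/-- (WR), deterministic: list the `n < M` with `p n` as `nth p k`, `k < count p M`; `count p (nth p k) = k`. -/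
def G_WR : Prop := ∀ (p : ℕ → Prop) [DecidablePred p] (a : ℕ → ℕ), (Set.ofPred p).Infinite → ∀ (s t : ℝ) (M : ℕ),
  ∑ n ∈ Finset.range M, ((ind p n : ℝ) : ℂ) * ex s t (a (Nat.count p n)) (n + 1) =
    ∑ k ∈ Finset.range (Nat.count p M), ex s t (a k) (Nat.nth p k + 1)

/-- (WS), deterministic summation by parts.  `E_n = ∑_{m<n} exp(2πi t (m+1))` is bounded by `B = 2/|1 - e(t)|`;
`u_n = exp(2πi s a(count n))` changes only after an `n` with `p n`;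
`∑_{n<M} π_n u_n (E_{n+1} - E_n)`, `π = prb b` decreasing: bounded by `B (2 π_0 + 2 ∑_{n<M} ind n π_n)`, and
`∑_{n<M} ind n π_n ≤ n_0 + π_{n_0} count M` for every `n_0`. -/
def G_WS : Prop := ∀ (p : ℕ → Prop) [DecidablePred p] (a : ℕ → ℕ) (b : ℝ), 0 < b → (Set.ofPred p).Infinite →
  ∀ (s t : ℝ), (¬ ∃ m : ℤ, t = m) → ∀ ε : ℝ, 0 < ε → ∀ᶠ M : ℕ in atTop,
  ‖∑ n ∈ Finset.range M, ((prb b n : ℝ) : ℂ) * ex s t (a (Nat.count p n)) (n + 1)‖ ≤ ε * Nat.count p M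

/-- the model -/
def Model (a b : ℝ) {Ω : Type} [MeasurableSpace Ω] (P : Measure Ω) (ξ η : ℕ → Ω → ℕ) : Prop :=
  (∀ n, Measurable (ξ n)) ∧ (∀ n, Measurable (η n)) ∧ iIndepFun (fun i : ℕ ⊕ ℕ => Sum.elim ξ η i) P ∧
  (∀ n : ℕ, P {ω | ξ n ω = 1} = ENNReal.ofReal (((n : ℝ) + 1) ^ (-a))) ∧
  (∀ n : ℕ, P {ω | η n ω = 1} = ENNReal.ofReal (((n : ℝ) + 1) ^ (-b)))

/-- (WH), one half.  `Pool.Agent.Helper49.RS.predBern_of` for `(η, ξ)` (exchange the summands of `ℕ ⊕ ℕ`), `A n ω =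
nth (pr ξ ω) (count (pr η ω) n) + 1 = bt .. + 1`, measurable for the past (`meas_bt`), `≤ M^D` eventually for all
`n < M` by `G_WG` for `ξ` (`count n ≤ n < M`).  `G_WC`, `G_WS` (for `a' k = nth (pr ξ ω) k + 1`), `G_WR`:
`|∑_{k < count M} ex s t (a_k) (b_k)| ≤ ε M^(1-b) + ε count M ≤ (ε/c + ε) count M`; every `K` is `count M` for
`M = nth K`; and `e2 (m,n) (s,t) = ex s t m n` for real representatives. -/
def G_WH : Prop := G_WC → G_WG → G_WR → G_WS → ∀ (a b : ℝ), 0 < a → a < 1 → 0 < b → b < 1 →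
  ∀ (Ω : Type) [MeasurableSpace Ω] (P : Measure Ω) [IsProbabilityMeasure P] (ξ η : ℕ → Ω → ℕ),
  Model a b P ξ η → ∀ᵐ ω ∂P, {n | ξ n ω = 1}.Infinite ∧ {n | η n ω = 1}.Infinite ∧
  ∀ z : Ci × Ci, z.2 ≠ 0 → Tendsto (fun N : ℕ => (N : ℂ)⁻¹ * ∑ k ∈ Finset.range N,
    e2 (((Nat.nth (fun n => ξ n ω = 1) k + 1 : ℕ) : ℤ), ((Nat.nth (fun n => η n ω = 1) k + 1 : ℕ) : ℤ)) z)
    atTop (𝓝 0)

/-- (WP): `G_WH` for `(ξ,η)` and for `(η,ξ)`. -/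
def G_WP : Prop := G_WH → G_WC → G_WG → G_WR → G_WS → ∀ (a b : ℝ), 0 < a → a < 1 → 0 < b → b < 1 →
  ∀ (Ω : Type) [MeasurableSpace Ω] (P : Measure Ω) [IsProbabilityMeasure P] (ξ η : ℕ → Ω → ℕ),
  Model a b P ξ η → ∀ᵐ ω ∂P, {n | ξ n ω = 1}.Infinite ∧ {n | η n ω = 1}.Infinite ∧
  Wp (fun k => Nat.nth (fun n => ξ n ω = 1) k + 1) (fun k => Nat.nth (fun n => η n ω = 1) k + 1)

/-! ## Part K: `T = S`, the tail σ-algebra -/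

/-- (REV), reverse martingale convergence in `L²`.  The subspaces `L²(F n)` decrease; `μ[f|F n]` is the orthogonal
projection, so it converges in `L²` to some `v` (norms of the differences telescope); `v` is a.e. equal to an
`F n`-measurable function for every `n`, hence (limsup of the versions `μ[f|F n]` along a subsequence converging a.e.)
to a `⨅ F n`-measurable function; `v = μ[v | ⨅] = μ[f | ⨅] = 0`. -/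
def G_REV : Prop := ∀ (α : Type) [m0 : MeasurableSpace α] (μ : Measure α) [IsProbabilityMeasure μ]
  (F : ℕ → MeasurableSpace α), Antitone F → F 0 ≤ m0 → ∀ f : α → ℝ, Bd f → μ[f | ⨅ n, F n] =ᵐ[μ] 0 →
  Tendsto (fun n => eLpNorm (μ[f | F n]) 1 μ) atTop (𝓝 0)

/-- The decreasing filtration of `A`: `Fz A T m` is the preimage of `A` under `T^m`, `m ∈ ℤ`. -/
@[instance_reducible] def Fz {α : Type*} (A : MeasurableSpace α) [MeasurableSpace α] (T : α ≃ᵐ α) (m : ℤ) :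
    MeasurableSpace α := MeasurableSpace.comap (zp T m) A

/-- `A` is contained in the σ-algebra, decreasing under `T`, exhausting. -/
structure Exh {α : Type*} (A : MeasurableSpace α) [m0 : MeasurableSpace α] (T : α ≃ᵐ α) : Prop where
  le : A ≤ m0
  dec : MeasurableSpace.comap (⇑T) A ≤ A
  top : m0 ≤ ⨆ n : ℕ, Fz A T (-(n : ℤ))

/-- the tail -/
@[instance_reducible] def Tl {α : Type*} (A : MeasurableSpace α) [MeasurableSpace α] (T : α ≃ᵐ α) :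
    MeasurableSpace α := ⨅ n : ℕ, Fz A T n

/-- (FZ): `Fz` is antitone; composition with `zp T m` maps `Fz n`-measurable functions to `Fz (n+m)`-measurable ones;
the tail is invariant. -/
def G_FZ : Prop := G_ZP → ∀ (α : Type) (A : MeasurableSpace α) [m0 : MeasurableSpace α] (T : α ≃ᵐ α),
  Exh A T → (∀ m n : ℤ, m ≤ n → Fz A T n ≤ Fz A T m) ∧ (∀ m, Fz A T m ≤ m0) ∧ Tl A T ≤ m0 ∧
  (∀ (n m : ℤ) (u : α → ℝ), Measurable[Fz A T n] u → Measurable[Fz A T (n + m)] (fun x => u (zp T m x))) ∧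
  (∀ (m : ℤ) (u : α → ℝ), Measurable[Tl A T] u → Measurable[Tl A T] (fun x => u (zp T m x))) ∧
  (∀ m, Tl A T ≤ Fz A T m)

/-- (APX), upward martingale convergence (`MeasureTheory.tendsto_eLpNorm_condExp`), with versions bounded by `1`
(truncate). -/
def G_APX : Prop := G_FZ → G_ZP → ∀ (α : Type) (A : MeasurableSpace α) [m0 : MeasurableSpace α] (μ : Measure α)
  [IsProbabilityMeasure μ] (T : α ≃ᵐ α), Exh A T → ∀ f : α → ℝ, Bd f → ∀ ε : ℝ,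
  0 < ε → ∃ (p : ℕ) (f' : α → ℝ), Measurable[Fz A T (-(p : ℤ))] f' ∧ (∀ x, |f' x| ≤ 1) ∧
  μ[f' | Tl A T] =ᵐ[μ] μ[f | Tl A T] ∧ ∫ x, |f x - f' x| ∂μ ≤ ε

/-- (KM).  `∫ u v = ∫ μ[u | Fz D] v ≤ ‖μ[u | Fz D]‖_1`, `G_REV`. -/
def G_KM : Prop := G_REV → G_FZ → G_ZP → ∀ (α : Type) (A : MeasurableSpace α) [m0 : MeasurableSpace α] (μ : Measure α)
  [IsProbabilityMeasure μ] (T : α ≃ᵐ α), Exh A T → ∀ u : α → ℝ, Bd u →
  μ[u | Tl A T] =ᵐ[μ] 0 → ∀ ε : ℝ, 0 < ε → ∃ D : ℕ, ∀ v : α → ℝ, Measurable[Fz A T D] v →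
  (∀ x, |v x| ≤ 1) → |∫ x, u x * v x ∂μ| ≤ ε

/-- (SEP), deterministic: from `Wp a b` and strict monotonicity: for every `D` the proportion of the pairs `(k,l)`,
`k, l < N`, for which two of the four integers `a k, a l, b k, b l` are at distance `≤ D` tends to `0`.  For `k ≠ l`
fixed `k`: at most `2D+1` values of `l` with `|a k - a l| ≤ D` etc.  For `|a k - b k| ≤ D`: by `Wp` at `(s,-s)`,
`(1/N) ∑ e((a_k - b_k)s) → 0` for all `s ≠ 0`, so by dominated convergence in `s` the proportion of `k` with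
`a k - b k = d` tends to `0` for every `d`. -/
def G_SEP : Prop := ∀ a b : ℕ → ℕ, Wp a b → StrictMono a → StrictMono b → ∀ D : ℕ,
  Tendsto (fun N : ℕ => ((N : ℝ) ^ 2)⁻¹ * (((Finset.range N ×ˢ Finset.range N).filter fun q : ℕ × ℕ =>
    q.1 = q.2 ∨ |(a q.1 : ℤ) - a q.2| ≤ D ∨ |(b q.1 : ℤ) - b q.2| ≤ D ∨ |(a q.1 : ℤ) - b q.1| ≤ D ∨
    |(a q.2 : ℤ) - b q.2| ≤ D ∨ |(a q.1 : ℤ) - b q.2| ≤ D ∨ |(a q.2 : ℤ) - b q.1| ≤ D).card : ℝ))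
    atTop (𝓝 0)

/-- (K22).  `f, g` both with `μ[·|Tl] = 0`.  `|∫ (Av f g)² - ∫ (Av f' g')²| ≤ 2(‖f-f'‖_1 + ‖g-g'‖_1)` (all bounded by
`1`).  `∫ (Av f' g')² = N⁻² ∑_{k,l} ∫ f'∘T^{a_k} f'∘T^{a_l} g'∘T^{b_k} g'∘T^{b_l}`; for a pair with all distances
`> D + p` the smallest exponent `i` (of `u = f'` or `g'`): the other three factors are `Fz (i + D)`-measurable, shift by
`-i` and use `G_KM` for `u`.  The other pairs have proportion `o(1)`. -/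
def G_K22 : Prop := G_KM → G_REV → G_APX → G_SEP → G_FZ → G_ZP → ∀ (α : Type) (A : MeasurableSpace α) [m0 : MeasurableSpace α]
  (μ : Measure α) [IsProbabilityMeasure μ] (T : α ≃ᵐ α), Exh A T →
  MeasurePreserving (⇑T) μ μ → ∀ a b : ℕ → ℕ, Wp a b → StrictMono a → StrictMono b → ∀ f g : α → ℝ,
  Bd f → Bd g → μ[f | Tl A T] =ᵐ[μ] 0 → μ[g | Tl A T] =ᵐ[μ] 0 →
  Tendsto (fun N => ∫ x, (Av T T a b f g N x) ^ 2 ∂μ) atTop (𝓝 0)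

/-- (K21).  `μ[f|Tl] = 0`, `g` `Tl`-measurable.  For a pair with `|a_k - a_l| > D + p`, `i` the smaller of `a_k, a_l`:
`∫ f'∘T^i (f'∘T^{i'} g∘T^{b_k} g∘T^{b_l})`, the bracket is `Fz (i + D)`-measurable.  Both orders of the pair `(f,g)`:
the statement with the roles of `a, b` exchanged follows from `Av T T a b f g = Av T T b a g f`. -/
def G_K21 : Prop := G_KM → G_REV → G_APX → G_SEP → G_FZ → G_ZP → ∀ (α : Type) (A : MeasurableSpace α) [m0 : MeasurableSpace α]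
  (μ : Measure α) [IsProbabilityMeasure μ] (T : α ≃ᵐ α), Exh A T →
  MeasurePreserving (⇑T) μ μ → ∀ a b : ℕ → ℕ, Wp a b → StrictMono a → StrictMono b → ∀ f g : α → ℝ,
  Bd f → Bd g → μ[f | Tl A T] =ᵐ[μ] 0 → Measurable[Tl A T] g →
  Tendsto (fun N => ∫ x, (Av T T a b f g N x) ^ 2 ∂μ) atTop (𝓝 0)

end Pool.Agent.Helper57.SS
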