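import Pool.Agent.Helper57.SS.Goals

set_option autoImplicit false

namespace Pool.Agent.Helper57.SS

open MeasureTheory ProbabilityTheory Filter Topology
open Pool.Agent.Helper49.RS

theorem sum_ind (p : ℕ → Prop) [DecidablePred p] (n : ℕ) :
    ∑ m ∈ Finset.range n, ind p m = Nat.count p n := by
  induction n with
  | zero => simp
  | succ n ih => rw [Finset.sum_range_succ, ih, Nat.count_succ, ind]; split_ifs <;> simp

theorem gWG : G_WG := by
  intro b hb0 hb1 Ω _ P _ ξ F hP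
  filter_upwards [window_fact hP] with ω hω
  have h1b : 0 < 1 - b := by linarith
  have hlog : ∀ᶠ M : ℕ in atTop, 8 * Real.log M ≤ (1 / 4) * (M : ℝ) ^ (1 - b) := by
    have h := (isLittleO_log_rpow_atTop h1b).bound (show (0 : ℝ) < 1 / 32 by norm_num)
    have h2 := tendsto_natCast_atTop_atTop (R := ℝ) |>.eventually h
    filter_upwards [h2, eventually_ge_atTop 1] with M hM hM1
    have hM0 : (1 : ℝ) ≤ M := by exact_mod_cast hM1
    rw [Real.norm_of_nonneg (Real.log_nonneg hM0), Real.norm_of_nonneg (by positivity)] at hM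
    linarith
  have hcnt : ∀ᶠ M : ℕ in atTop, (1 / 4 : ℝ) * (M : ℝ) ^ (1 - b) ≤ Nat.count (pr ξ ω) M := by
    filter_upwards [hω, hlog, eventually_ge_atTop 1] with M h1 h2 h3
    have h4 := (h1 0 M (Nat.zero_le _) le_rfl).2
    have h5 := sum_prb_lower b hb0.le 0 M (M : ℝ) (Nat.zero_le _) le_rfl
    have h6 : ∑ n ∈ Finset.Ico 0 M, ind (pr ξ ω) n = Nat.count (pr ξ ω) M := by
      rw [← Finset.range_eq_Ico]; exact sum_ind _ _
    rw [h6] at h4
    have h7 : (M : ℝ) ^ (1 - b) ≤ ∑ n ∈ Finset.Ico 0 M, prb b n := by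
      refine le_trans (le_of_eq ?_) h5
      have hM0 : (0 : ℝ) < M := by exact_mod_cast h3
      rw [sub_eq_add_neg, Real.rpow_add hM0, Real.rpow_one]
      simp
    linarith
  have hinf : {n | ξ n ω = 1}.Infinite := by
    intro hfin
    have hb : ∀ M, Nat.count (pr ξ ω) M ≤ hfin.toFinset.card := by
      intro M
      rw [Nat.count_eq_card_filter_range]
      refine Finset.card_le_card fun n hn => ?_
      rw [Finset.mem_filter] at hn
      exact hfin.mem_toFinset.2 hn.2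
    have ht : Tendsto (fun M : ℕ => (1 / 4 : ℝ) * (M : ℝ) ^ (1 - b)) atTop atTop :=
      ((tendsto_rpow_atTop h1b).comp tendsto_natCast_atTop_atTop).const_mul_atTop (by norm_num)
    obtain ⟨M, h1, h2⟩ := (hcnt.and (ht.eventually_gt_atTop (hfin.toFinset.card : ℝ))).exists
    have h3 : (Nat.count (pr ξ ω) M : ℝ) ≤ hfin.toFinset.card := by exact_mod_cast hb M
    linarith
  refine ⟨hinf, ⟨1 / 4, by norm_num, hcnt⟩, ⌈2 / (1 - b)⌉₊, ?_⟩
  rw [eventually_atTop] at hcnt
  obtain ⟨M0, hM0⟩ := hcnt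
  filter_upwards [eventually_ge_atTop (max M0 8)] with k hk
  have hk1 : M0 ≤ k := le_trans (le_max_left _ _) hk
  have hk8 : 8 ≤ k := le_trans (le_max_right _ _) hk
  set m := Nat.nth (pr ξ ω) k with hm
  have hinf' : (Set.ofPred (pr ξ ω)).Infinite := hinf
  have hkm : k ≤ m := (Nat.nth_strictMono hinf').id_le k
  have hc : Nat.count (pr ξ ω) (m + 1) = k + 1 := by
    rw [hm]
    exact Nat.count_nth_succ_of_infinite hinf' k
  have h1 := hM0 (m + 1) (by omega)
  rw [hc] at h1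
  have hkr : (8 : ℝ) ≤ k := by exact_mod_cast hk8
  have h2 : ((m + 1 : ℕ) : ℝ) ^ (1 - b) ≤ (k : ℝ) ^ (2 : ℝ) := by
    rw [Real.rpow_two]
    push_cast at h1 ⊢
    nlinarith
  have h3 : ((m + 1 : ℕ) : ℝ) ≤ (k : ℝ) ^ (2 / (1 - b)) := by
    have h4 := Real.rpow_le_rpow (by positivity) h2 (show 0 ≤ 1 / (1 - b) by positivity)
    rw [← Real.rpow_mul (by positivity), ← Real.rpow_mul (by positivity)] at h4
    have e1 : (1 - b) * (1 / (1 - b)) = 1 := by field_simp
    have e2 : (2 : ℝ) * (1 / (1 - b)) = 2 / (1 - b) := by ring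
    rw [e1, e2, Real.rpow_one] at h4
    exact h4
  have h5 : (k : ℝ) ^ (2 / (1 - b)) ≤ (k : ℝ) ^ ((⌈2 / (1 - b)⌉₊ : ℕ) : ℝ) :=
    Real.rpow_le_rpow_of_exponent_le (by linarith) (Nat.le_ceil _)
  rw [Real.rpow_natCast] at h5
  have h6 : ((m + 1 : ℕ) : ℝ) ≤ ((k ^ ⌈2 / (1 - b)⌉₊ : ℕ) : ℝ) := by
    push_cast at h3 ⊢
    linarith
  exact_mod_cast h6

end Pool.Agent.Helper57.SS
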