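import Pool.Agent.Helper57.SS.Mix
import Pool.Agent.Helper13.SS.FZ
import Pool.Agent.Helper13.SS.LF3
import Pool.Agent.Helper15.SS.LF7
import Pool.Agent.Helper16.SS.KM
import Pool.Agent.Helper16.SS.VN
import Pool.Agent.Helper19.SS.WR
import Pool.Agent.Helper2.SS.E1
import Pool.Agent.Helper23.SS.VNT
import Pool.Agent.Helper26.SS.WH
import Pool.Agent.Helper27.SS.ACL
import Pool.Agent.Helper3.SS.HZC
import Pool.Agent.Helper31.SS.GAP
import Pool.Agent.Helper32.SS.PICK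
import Pool.Agent.Helper32.SS.RPD
import Pool.Agent.Helper33.SS.MMA
import Pool.Agent.Helper34.SS.E3
import Pool.Agent.Helper34.SS.SPZ
import Pool.Agent.Helper35.SS.DIS
import Pool.Agent.Helper35.SS.REP
import Pool.Agent.Helper35.SS.SNG
import Pool.Agent.Helper35.SS.UNI
import Pool.Agent.Helper57.SS.WG
import Pool.Agent.Helper38.SS.LF6
import Pool.Agent.Helper39.SS.FORM
import Pool.Agent.Helper4.SS.LOC
import Pool.Agent.Helper4.SS.WSY
import Pool.Agent.Helper42.SS.ELT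
import Pool.Agent.Helper48.SS.LF1
import Pool.Agent.Helper50.SS.FIN
import Pool.Agent.Helper55.SS.LHA
import Pool.Agent.Helper56.SS.SEP
import Pool.Agent.Helper59.SS.LF5
import Pool.Agent.Helper69.SS.HZP
import Pool.Agent.Helper72.SS.K22
import Pool.Agent.Helper76.SS.APX
import Pool.Agent.Helper8.SS.COV
import Pool.Agent.Helper8.SS.WP
import Pool.Agent.Helper81.SS.WS
import Pool.Agent.Helper83.SS.HZ1
import Pool.Agent.Helper83.SS.SHB
import Pool.Agent.Helper87.SS.EL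
import Pool.Agent.Helper88.SS.SML
import Pool.Agent.Helper88.SS.ZP
import Pool.Agent.Helper89.SS.ATM
import Pool.Agent.Helper93.SS.LF2
import Pool.Agent.Helper94.SS.WC
import Pool.Agent.Helper98.SS.REV

/-!
# Project SS: main theorem
-/

set_option autoImplicit false

namespace Pool.Agent.Helper57.SS

open MeasureTheory ProbabilityTheory Filter Topology

theorem pLH : G_LH := Pool.Agent.Helper55.SS.gLHA Pool.Agent.Helper83.SS.gSHB Pool.Agent.Helper88.SS.gSML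
  Pool.Agent.Helper8.SS.gCOV Pool.Agent.Helper31.SS.gGAP Pool.Agent.Helper4.SS.gLOC
  Pool.Agent.Helper35.SS.gSNG Pool.Agent.Helper35.SS.gDIS Pool.Agent.Helper32.SS.gPICK
  Pool.Agent.Helper50.SS.gFIN

theorem pMM : G_MM := Pool.Agent.Helper33.SS.gMMA pLH Pool.Agent.Helper35.SS.gREP
  Pool.Agent.Helper35.SS.gUNI Pool.Agent.Helper27.SS.gACL Pool.Agent.Helper89.SS.gATM

theorem pHZ : G_HZ := Pool.Agent.Helper3.SS.gHZC Pool.Agent.Helper69.SS.gHZP

theorem pCORE : G_CORE := core pMM pHZ Pool.Agent.Helper83.SS.gHZ1 Pool.Agent.Helper88.SS.gZP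
  Pool.Agent.Helper16.SS.gVN Pool.Agent.Helper23.SS.gVNT Pool.Agent.Helper87.SS.gEL
  Pool.Agent.Helper42.SS.gELT Pool.Agent.Helper4.SS.gWSY Pool.Agent.Helper34.SS.gE3
  Pool.Agent.Helper2.SS.gE1 Pool.Agent.Helper34.SS.gSPZ Pool.Agent.Helper32.SS.gRPD
  Pool.Agent.Helper39.SS.gFORM Pool.Agent.Helper48.SS.gLF1 Pool.Agent.Helper93.SS.gLF2
  (Pool.Agent.Helper13.SS.gLF3 Pool.Agent.Helper93.SS.gLF2) Pool.Agent.Helper59.SS.gLF5
  Pool.Agent.Helper38.SS.gLF6 Pool.Agent.Helper15.SS.gLF7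

/-- Convergence for every pair of equidistributed strictly increasing sequences. -/
theorem conv_main {α : Type} [MeasurableSpace α] {μ : Measure α}
    [IsProbabilityMeasure μ] {T S : α ≃ᵐ α} {a b : ℕ → ℕ} (hW : Wp a b) (ha : StrictMono a)
    (hb : StrictMono b) (hT : Ergodic (⇑T) μ) (hS : Ergodic (⇑S) μ) (hTS : ∀ x, T (S x) = S (T x))
    {f g : α → ℝ} (hf : MemLp f ⊤ μ) (hg : MemLp g ⊤ μ) (h : AdmM μ T S f g) :
    Conv μ T S a b f g :=
  conv_allM pCORE pHZ Pool.Agent.Helper88.SS.gZP Pool.Agent.Helper16.SS.gVN Pool.Agent.Helper87.SS.gEL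
    Pool.Agent.Helper34.SS.gE3 Pool.Agent.Helper4.SS.gWSY Pool.Agent.Helper13.SS.gFZ
    Pool.Agent.Helper16.SS.gKM Pool.Agent.Helper98.SS.gREV Pool.Agent.Helper76.SS.gAPX
    Pool.Agent.Helper56.SS.gSEP Pool.Agent.Helper72.SS.gK22 Pool.Agent.Helper72.SS.gK21
    hW ha hb hT hS hTS hf hg h

/-- The random sequences are equidistributed. -/
theorem ae_wp {a b : ℝ} (ha0 : 0 < a) (ha1 : a < 1) (hb0 : 0 < b) (hb1 : b < 1)
    {Ω : Type} [MeasurableSpace Ω] {P : Measure Ω} [IsProbabilityMeasure P] {ξ η : ℕ → Ω → ℕ}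
    (hM : Model a b P ξ η) : ∀ᵐ ω ∂P, {n | ξ n ω = 1}.Infinite ∧ {n | η n ω = 1}.Infinite ∧
      Wp (fun k => Nat.nth (fun n => ξ n ω = 1) k + 1) (fun k => Nat.nth (fun n => η n ω = 1) k + 1) :=
  Pool.Agent.Helper8.SS.gWP Pool.Agent.Helper26.SS.gWH Pool.Agent.Helper94.SS.gWC
    Pool.Agent.Helper57.SS.gWG Pool.Agent.Helper19.SS.gWR Pool.Agent.Helper81.SS.gWS
    a b ha0 ha1 hb0 hb1 Ω P ξ η hM

/-- The main theorem. -/
theorem main {a b : ℝ} (ha0 : 0 < a) (ha1 : a < 1) (hb0 : 0 < b) (hb1 : b < 1)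
    {Ω : Type} [MeasurableSpace Ω] {P : Measure Ω} [IsProbabilityMeasure P] {ξ η : ℕ → Ω → ℕ}
    (hM : Model a b P ξ η) : ∀ᵐ ω ∂P, ∀ (α : Type) [MeasurableSpace α] (μ : Measure α)
      [IsProbabilityMeasure μ] (T S : α ≃ᵐ α), Ergodic (⇑T) μ → Ergodic (⇑S) μ →
      (∀ x, T (S x) = S (T x)) → ∀ f g : α → ℝ, MemLp f ⊤ μ → MemLp g ⊤ μ → AdmM μ T S f g →
      Conv μ T S (fun k => Nat.nth (fun n => ξ n ω = 1) k + 1)
        (fun k => Nat.nth (fun n => η n ω = 1) k + 1) f g := by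
  filter_upwards [ae_wp ha0 ha1 hb0 hb1 hM] with ω hω
  obtain ⟨h1, h2, h3⟩ := hω
  intro α _ μ _ T S hT hS hTS f g hf hg h
  refine conv_main h3 ?_ ?_ hT hS hTS hf hg h
  · exact fun i j hij => Nat.add_lt_add_right (Nat.nth_strictMono h1 hij) 1
  · exact fun i j hij => Nat.add_lt_add_right (Nat.nth_strictMono h2 hij) 1

end Pool.Agent.Helper57.SS
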