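import Pool.Agent.Helper57.SS.Main
import Pool.Agent.Helper57.SS.Final2
import Pool.Agent.Helper27.SS.EB
import Pool.Agent.Helper61.SS.K2
import Pool.Agent.Helper61.SS.K3
import Pool.Agent.Helper94.SS.K4
import Pool.Agent.Helper32.SS.ES1
import Pool.Agent.Helper8.SS.ES2
import Pool.Agent.Helper9.SS.ES3
import Pool.Agent.Helper77.SS.EC
import Pool.Agent.Helper40.SS.EF
import Pool.Agent.Helper33.SS.ET

/-!
# Project SS, second part: main theorem for `T = S`
-/

set_option autoImplicit false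

namespace Pool.Agent.Helper57.SS

open MeasureTheory ProbabilityTheory Filter Topology

theorem pCS : S_CS := by
  intro α _ μ _ T a b hW hT f g hf hg h
  exact conv_single pCORE pHZ Pool.Agent.Helper88.SS.gZP Pool.Agent.Helper16.SS.gVN
    Pool.Agent.Helper87.SS.gEL hW hT hT (fun x => rfl) hf hg h

theorem pK3 : S_K3 := Pool.Agent.Helper61.SS.gK3 Pool.Agent.Helper61.SS.gK2

theorem pK4 : S_K4 := Pool.Agent.Helper94.SS.gK4 Pool.Agent.Helper27.SS.gEB Pool.Agent.Helper61.SS.gK2 pK3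

theorem pES : S_ES := Pool.Agent.Helper9.SS.gES3 Pool.Agent.Helper32.SS.gES1 Pool.Agent.Helper8.SS.gES2
  Pool.Agent.Helper61.SS.gK2 pK3 pHZ Pool.Agent.Helper83.SS.gHZ1 Pool.Agent.Helper32.SS.gRPD
  Pool.Agent.Helper88.SS.gZP Pool.Agent.Helper34.SS.gSPZ

theorem pEF : S_EF := Pool.Agent.Helper40.SSEF.gEF
  (Pool.Agent.Helper77.SS.gEC pCS Pool.Agent.Helper61.SS.gK2 pK4 pES)
  Pool.Agent.Helper27.SS.gEB Pool.Agent.Helper88.SS.gZP

/-- Convergence for every pair of equidistributed strictly increasing sequences, `T = S`. -/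
theorem convI_main {α : Type} [MeasurableSpace α] {μ : Measure α} [IsProbabilityMeasure μ]
    {T : α ≃ᵐ α} {a b : ℕ → ℕ} (hW : Wp a b) (ha : StrictMono a) (hb : StrictMono b)
    (hT : MeasurePreserving (⇑T) μ μ) {f g : α → ℝ} (hf : MemLp f ⊤ μ) (hg : MemLp g ⊤ μ)
    (h : TailSing μ T f ∨ TailSing μ T g) : ConvI μ T a b f g :=
  convI_all pEF Pool.Agent.Helper33.SS.gET Pool.Agent.Helper88.SS.gZP Pool.Agent.Helper4.SS.gWSY
    Pool.Agent.Helper13.SS.gFZ Pool.Agent.Helper16.SS.gKM Pool.Agent.Helper98.SS.gREV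
    Pool.Agent.Helper76.SS.gAPX Pool.Agent.Helper56.SS.gSEP Pool.Agent.Helper72.SS.gK22
    Pool.Agent.Helper72.SS.gK21 hW ha hb hT hf hg h

/-- The main theorem, `T = S`. -/
theorem main2 {a b : ℝ} (ha0 : 0 < a) (ha1 : a < 1) (hb0 : 0 < b) (hb1 : b < 1)
    {Ω : Type} [MeasurableSpace Ω] {P : Measure Ω} [IsProbabilityMeasure P] {ξ η : ℕ → Ω → ℕ}
    (hM : Model a b P ξ η) : ∀ᵐ ω ∂P, ∀ (α : Type) [MeasurableSpace α] (μ : Measure α)
      [IsProbabilityMeasure μ] (T : α ≃ᵐ α), MeasurePreserving (⇑T) μ μ →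
      ∀ f g : α → ℝ, MemLp f ⊤ μ → MemLp g ⊤ μ → (TailSing μ T f ∨ TailSing μ T g) →
      ConvI μ T (fun k => Nat.nth (fun n => ξ n ω = 1) k + 1)
        (fun k => Nat.nth (fun n => η n ω = 1) k + 1) f g := by
  filter_upwards [ae_wp ha0 ha1 hb0 hb1 hM] with ω hω
  obtain ⟨h1, h2, h3⟩ := hω
  intro α _ μ _ T hT f g hf hg h
  refine convI_main h3 ?_ ?_ hT hf hg h
  · exact fun i j hij => Nat.add_lt_add_right (Nat.nth_strictMono h1 hij) 1
  · exact fun i j hij => Nat.add_lt_add_right (Nat.nth_strictMono h2 hij) 1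

end Pool.Agent.Helper57.SS
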